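import Mathlib

/-!
# Distributional solutions of `g'' = h` on the line
-/

namespace NLSLib

open MeasureTheory Set Filter

noncomputable section

/-- Smooth compactly supported functions. -/
def Test (φ : ℝ → ℝ) : Prop := ContDiff ℝ (⊤ : ℕ∞) φ ∧ HasCompactSupport φ

lemma Test.bound {φ : ℝ → ℝ} (h : Test φ) : ∃ R > 0, ∀ x, R ≤ |x| → φ x = 0 := by
  obtain ⟨R, hR⟩ := h.2.isCompact.isBounded.subset_closedBall (0 : ℝ)
  refine ⟨max R 0 + 1, by positivity, fun x hx => ?_⟩
  by_contra hne
  have h1 : x ∈ tsupport φ := subset_tsupport φ hne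
  have h2 := hR h1
  rw [Metric.mem_closedBall, dist_zero_right, Real.norm_eq_abs] at h2
  have := le_max_left R 0
  linarith

lemma Test.continuous {φ : ℝ → ℝ} (h : Test φ) : Continuous φ := h.1.continuous

lemma Test.deriv {φ : ℝ → ℝ} (h : Test φ) : Test (deriv φ) := by
  refine ⟨?_, h.2.deriv⟩
  have := (contDiff_infty_iff_deriv.1 h.1).2
  exact this

lemma Test.differentiable {φ : ℝ → ℝ} (h : Test φ) : Differentiable ℝ φ :=
  (contDiff_infty_iff_deriv.1 h.1).1

lemma Test.sub {φ ψ : ℝ → ℝ} (h : Test φ) (h' : Test ψ) : Test (fun x => φ x - ψ x) := by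
  refine ⟨h.1.sub h'.1, ?_⟩
  exact HasCompactSupport.sub h.2 h'.2

lemma Test.smul {φ : ℝ → ℝ} (h : Test φ) (a : ℝ) : Test (fun x => a * φ x) := by
  refine ⟨contDiff_const.mul h.1, ?_⟩
  exact h.2.mul_left

lemma Test.integrable {φ : ℝ → ℝ} (h : Test φ) : Integrable φ :=
  h.continuous.integrable_of_hasCompactSupport h.2

lemma Test.mul_integrable {φ f : ℝ → ℝ} (h : Test φ) (hf : LocallyIntegrable f) :
    Integrable (fun x => f x * φ x) := by
  have := hf.integrable_smul_right_of_hasCompactSupport h.continuous h.2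
  simpa [smul_eq_mul] using this

lemma Test.primitive {ψ : ℝ → ℝ} (h : Test ψ) (h0 : ∫ x, ψ x = 0) :
    ∃ φ, Test φ ∧ ∀ x, HasDerivAt φ (ψ x) x := by
  obtain ⟨R, hR, hz⟩ := h.bound
  set φ : ℝ → ℝ := fun x => ∫ s in (-R)..x, ψ s with hφ
  have hd : ∀ x, HasDerivAt φ (ψ x) x := fun x =>
    intervalIntegral.integral_hasDerivAt_right (h.continuous.intervalIntegrable _ _)
      (h.continuous.stronglyMeasurableAtFilter _ _) h.continuous.continuousAt
  have hderiv : _root_.deriv φ = ψ := funext fun x => (hd x).deriv
  have htot : ∀ x, R ≤ x → φ x = 0 := by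
    intro x hx
    rw [hφ]
    simp only
    rw [intervalIntegral.integral_of_le (by linarith), ← integral_indicator measurableSet_Ioc]
    rw [← h0]
    congr 1
    funext s
    by_cases hs : s ∈ Ioc (-R) x
    · rw [indicator_of_mem hs]
    · rw [indicator_of_notMem hs]
      symm
      apply hz
      rw [mem_Ioc, not_and_or, not_lt, not_le] at hs
      rcases hs with hs | hs
      · rw [abs_of_nonpos (by linarith)]; linarith
      · rw [abs_of_nonneg (by linarith)]; linarith
  have hneg : ∀ x, x ≤ -R → φ x = 0 := by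
    intro x hx
    rw [hφ]
    simp only
    rw [intervalIntegral.integral_symm, intervalIntegral.integral_of_le hx, neg_eq_zero]
    rw [setIntegral_eq_zero_of_forall_eq_zero]
    intro s hs
    apply hz
    rw [abs_of_nonpos (by linarith [hs.2])]
    linarith [hs.2]
  refine ⟨φ, ⟨?_, ?_⟩, hd⟩
  · rw [contDiff_infty_iff_deriv, hderiv]
    exact ⟨fun x => (hd x).differentiableAt, h.1⟩
  · apply HasCompactSupport.intro (isCompact_Icc (a := -R) (b := R))
    intro x hx
    rw [mem_Icc, not_and_or, not_le, not_le] at hx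
    rcases hx with hx | hx
    · exact hneg x hx.le
    · exact htot x hx.le

/-- A fixed test function of integral one. -/
lemma exists_unit_test : ∃ ρ : ℝ → ℝ, Test ρ ∧ ∫ x, ρ x = 1 := by
  let b : ContDiffBump (0 : ℝ) := ⟨1, 2, by norm_num, by norm_num⟩
  refine ⟨b.normed volume, ⟨b.contDiff_normed, b.hasCompactSupport_normed⟩, ?_⟩
  exact b.integral_normed

lemma weak_one {f : ℝ → ℝ} (hf : LocallyIntegrable f)
    (h : ∀ φ, Test φ → ∫ x, f x * deriv φ x = 0) : ∃ a, ∀ᵐ x, f x = a := by
  obtain ⟨ρ, hρ, hρ1⟩ := exists_unit_test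
  set a := ∫ x, f x * ρ x with ha
  refine ⟨a, ?_⟩
  have hlc : LocallyIntegrable (fun x => f x - a) := hf.sub (locallyIntegrable_const a)
  have key := ae_eq_zero_of_integral_contDiff_smul_eq_zero hlc (fun g hg hgc => ?_)
  · filter_upwards [key] with x hx
    linarith
  · have hg' : Test g := ⟨hg, hgc⟩
    set m := ∫ x, g x with hm
    have ht : Test (fun x => g x - m * ρ x) := hg'.sub (hρ.smul m)
    have hi : ∫ x, (g x - m * ρ x) = 0 := by
      rw [integral_sub hg'.integrable (hρ.smul m).integrable, integral_const_mul, hρ1]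
      simp [hm]
    obtain ⟨φ, hφ, hφd⟩ := ht.primitive hi
    have h1 := h φ hφ
    have h2 : deriv φ = fun x => g x - m * ρ x := funext fun x => (hφd x).deriv
    rw [h2] at h1
    have e1 : ∫ x, f x * (g x - m * ρ x) = (∫ x, f x * g x) - m * a := by
      rw [ha, ← integral_const_mul, ← integral_sub (hg'.mul_integrable hf)
        ((hρ.mul_integrable hf).const_mul m)]
      congr 1
      funext x
      ring
    have e2 : ∫ x, g x • (f x - a) = (∫ x, f x * g x) - m * a := by
      have : ∀ x, g x • (f x - a) = f x * g x - a * g x := fun x => by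
        simp only [smul_eq_mul]; ring
      simp only [this]
      rw [integral_sub (hg'.mul_integrable hf) (hg'.integrable.const_mul a),
        integral_const_mul, mul_comm a m]
    rw [e2, ← e1, h1]

/-- integration by parts against a test function -/
lemma integral_by_parts {F F' φ : ℝ → ℝ} (hF : ∀ x, HasDerivAt F (F' x) x)
    (hF' : Continuous F') (h : Test φ) :
    ∫ x, F x * deriv φ x = -∫ x, F' x * φ x := by
  have hFc : Continuous F := continuous_iff_continuousAt.2 fun x => (hF x).continuousAt
  have h1 := MeasureTheory.integral_mul_deriv_eq_deriv_mul_of_integrable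
    (u := F) (v := φ) (u' := F') (v' := deriv φ) (fun x _ => hF x)
    (fun x _ => h.differentiable.differentiableAt.hasDerivAt)
    (h.deriv.mul_integrable hFc.locallyIntegrable) (h.mul_integrable hF'.locallyIntegrable)
    (h.mul_integrable hFc.locallyIntegrable)
  exact h1

lemma weak_two {f : ℝ → ℝ} (hf : LocallyIntegrable f)
    (h : ∀ φ, Test φ → ∫ x, f x * deriv (deriv φ) x = 0) :
    ∃ a b, ∀ᵐ x, f x = a + b * x := by
  obtain ⟨ρ, hρ, hρ1⟩ := exists_unit_test
  set b := ∫ x, f x * deriv ρ x with hb
  -- `∫ f ψ' = b ∫ ψ`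
  have hT : ∀ ψ, Test ψ → ∫ x, f x * deriv ψ x = b * ∫ x, ψ x := by
    intro ψ hψ
    set m := ∫ x, ψ x with hm
    have ht : Test (fun x => ψ x - m * ρ x) := hψ.sub (hρ.smul m)
    have hi : ∫ x, (ψ x - m * ρ x) = 0 := by
      rw [integral_sub hψ.integrable (hρ.smul m).integrable, integral_const_mul, hρ1]
      simp [hm]
    obtain ⟨φ, hφ, hφd⟩ := ht.primitive hi
    have h1 := h φ hφ
    have h2 : deriv φ = fun x => ψ x - m * ρ x := funext fun x => (hφd x).deriv
    have h3 : deriv (fun x => ψ x - m * ρ x) = fun x => deriv ψ x - m * deriv ρ x := by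
      funext x
      have k1 := hψ.differentiable.differentiableAt (x := x)
      have k2 := hρ.differentiable.differentiableAt (x := x)
      rw [deriv_fun_sub k1 (k2.const_mul m), deriv_const_mul _ k2]
    rw [h2, h3] at h1
    have e1 : ∫ x, f x * (deriv ψ x - m * deriv ρ x) =
        (∫ x, f x * deriv ψ x) - m * b := by
      rw [hb, ← integral_const_mul, ← integral_sub (hψ.deriv.mul_integrable hf)
        ((hρ.deriv.mul_integrable hf).const_mul m)]
      congr 1
      funext x
      ring
    rw [e1] at h1
    linarith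
  have hid : ∀ x : ℝ, HasDerivAt (fun x : ℝ => b * x) b x := fun x => by
    simpa using (hasDerivAt_id x).const_mul b
  have hcid : Continuous fun x : ℝ => b * x := by fun_prop
  obtain ⟨a, ha⟩ := weak_one (f := fun x => f x + b * x)
    (hf.add hcid.locallyIntegrable) (fun ψ hψ => by
      have e1 : ∫ x, (f x + b * x) * deriv ψ x =
          (∫ x, f x * deriv ψ x) + ∫ x, (b * x) * deriv ψ x := by
        rw [← integral_add (hψ.deriv.mul_integrable hf)
          (hψ.deriv.mul_integrable hcid.locallyIntegrable)]
        congr 1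
        funext x
        ring
      rw [e1, hT ψ hψ, integral_by_parts hid continuous_const hψ, integral_const_mul]
      ring)
  refine ⟨a, -b, ?_⟩
  filter_upwards [ha] with x hx
  linarith

/-- Regularity: distributional solutions of `g'' = h` are double primitives. -/
lemma weak_regular {g h : ℝ → ℝ} (hg : LocallyIntegrable g) (hh : LocallyIntegrable h)
    (hw : ∀ φ, Test φ → ∫ x, g x * deriv (deriv φ) x = ∫ x, h x * φ x) :
    ∃ a b, ∀ᵐ x, g x = a + b * x + ∫ s in (0 : ℝ)..x, ∫ z in (0 : ℝ)..s, h z := by
  have hhi : ∀ a b : ℝ, IntervalIntegrable h volume a b := fun a b =>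
    (hh.integrableOn_isCompact isCompact_uIcc).intervalIntegrable
  set H : ℝ → ℝ := fun s => ∫ z in (0 : ℝ)..s, h z with hH
  have hHc : Continuous H := intervalIntegral.continuous_primitive hhi 0
  set G : ℝ → ℝ := fun x => ∫ s in (0 : ℝ)..x, H s with hG
  have hGd : ∀ x, HasDerivAt G (H x) x := fun x =>
    intervalIntegral.integral_hasDerivAt_right (hHc.intervalIntegrable _ _)
      (hHc.stronglyMeasurableAtFilter _ _) hHc.continuousAt
  have hGc : Continuous G := continuous_iff_continuousAt.2 fun x => (hGd x).continuousAt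
  -- integration by parts for `H`
  have hHp : ∀ φ, Test φ → ∫ x, H x * deriv φ x = -∫ x, h x * φ x := by
    intro φ hφ
    obtain ⟨R, hR, hz⟩ := hφ.bound
    have hzd : ∀ x, R < |x| → deriv φ x = 0 := by
      intro x hx
      have : φ =ᶠ[nhds x] fun _ => 0 := by
        have ho : IsOpen {x : ℝ | R < |x|} := isOpen_lt continuous_const continuous_abs
        filter_upwards [ho.mem_nhds hx] with z hzz
        exact hz z (le_of_lt hzz)
      rw [this.deriv_eq]
      simp
    have e1 : ∫ x, H x * deriv φ x = ∫ x in (-(R + 1))..(R + 1), H x * deriv φ x := by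
      rw [intervalIntegral.integral_of_le (by linarith), setIntegral_eq_integral_of_forall_compl_eq_zero]
      intro x hx
      rw [hzd x, mul_zero]
      rw [mem_Ioc, not_and_or, not_lt, not_le] at hx
      rcases hx with hx | hx
      · rw [abs_of_nonpos (by linarith)]; linarith
      · rw [abs_of_nonneg (by linarith)]; linarith
    have e2 : ∫ x, h x * φ x = ∫ x in (-(R + 1))..(R + 1), h x * φ x := by
      rw [intervalIntegral.integral_of_le (by linarith), setIntegral_eq_integral_of_forall_compl_eq_zero]
      intro x hx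
      rw [hz x, mul_zero]
      rw [mem_Ioc, not_and_or, not_lt, not_le] at hx
      rcases hx with hx | hx
      · rw [abs_of_nonpos (by linarith)]; linarith
      · rw [abs_of_nonneg (by linarith)]; linarith
    have hac : AbsolutelyContinuousOnInterval H (-(R + 1)) (R + 1) :=
      (hhi _ _).absolutelyContinuousOnInterval_intervalIntegral (by
        rw [mem_uIcc]; left; constructor <;> linarith)
    have hac2 : AbsolutelyContinuousOnInterval φ (-(R + 1)) (R + 1) := by
      apply ContDiffOn.absolutelyContinuousOnInterval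
      exact (hφ.1.of_le (by exact_mod_cast le_top)).contDiffOn
    have e3 := hac.integral_mul_deriv_eq_deriv_mul hac2
    have z1 : φ (R + 1) = 0 := hz _ (by rw [abs_of_nonneg (by linarith)]; linarith)
    have z2 : φ (-(R + 1)) = 0 := hz _ (by rw [abs_neg, abs_of_nonneg (by linarith)]; linarith)
    rw [z1, z2, mul_zero, mul_zero, sub_zero, zero_sub] at e3
    rw [e1, e2, e3]
    congr 1
    apply intervalIntegral.integral_congr_ae
    have := (hhi (-(R + 1)) (R + 1)).ae_hasDerivAt_integral
    filter_upwards [this] with x hx hx2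
    have h1 := hx (uIoc_subset_uIcc hx2) 0 (by
        rw [mem_uIcc]; left; constructor <;> linarith)
    rw [show deriv H x = h x from h1.deriv]
  obtain ⟨a, b, hab⟩ := weak_two (f := fun x => g x - G x) (hg.sub hGc.locallyIntegrable)
    (fun φ hφ => by
      have e1 : ∫ x, (g x - G x) * deriv (deriv φ) x =
          (∫ x, g x * deriv (deriv φ) x) - ∫ x, G x * deriv (deriv φ) x := by
        rw [← integral_sub (hφ.deriv.deriv.mul_integrable hg)
          (hφ.deriv.deriv.mul_integrable hGc.locallyIntegrable)]
        congr 1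
        funext x
        ring
      rw [e1, hw φ hφ, integral_by_parts hGd hHc hφ.deriv, hHp φ hφ]
      ring)
  refine ⟨a, b, ?_⟩
  filter_upwards [hab] with x hx
  linarith

/-- Real weak `L²` solutions of `g'' = w g` (with `w` continuous) are classical. -/
lemma weak_classical {g w : ℝ → ℝ} (hw : Continuous w) (hg : MemLp g 2)
    (hweak : ∀ φ, Test φ → ∫ x, g x * deriv (deriv φ) x = ∫ x, (w x * g x) * φ x) :
    ∃ y y' : ℝ → ℝ, (∀ x, HasDerivAt y (y' x) x) ∧ (∀ x, HasDerivAt y' (w x * y x) x) ∧
      g =ᵐ[volume] y := by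
  have hgl : LocallyIntegrable g := hg.locallyIntegrable (by norm_num)
  have hwl : LocallyIntegrable (fun x => w x * g x) := hgl.continuous_mul hw
  obtain ⟨a, b, hab⟩ := weak_regular hgl hwl hweak
  set H : ℝ → ℝ := fun s => ∫ z in (0 : ℝ)..s, w z * g z with hH
  have hHc : Continuous H :=
    intervalIntegral.continuous_primitive (fun a b =>
      (hwl.integrableOn_isCompact isCompact_uIcc).intervalIntegrable) 0
  set y : ℝ → ℝ := fun x => a + b * x + ∫ s in (0 : ℝ)..x, H s with hy
  have hyd : ∀ x, HasDerivAt y (b + H x) x := by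
    intro x
    have h1 : HasDerivAt (fun x => ∫ s in (0 : ℝ)..x, H s) (H x) x :=
      intervalIntegral.integral_hasDerivAt_right (hHc.intervalIntegrable _ _)
        (hHc.stronglyMeasurableAtFilter _ _) hHc.continuousAt
    have h2 := (((hasDerivAt_id' x).const_mul b).const_add a).add h1
    refine HasDerivAt.congr_deriv h2 ?_
    ring
  have hyc : Continuous y := continuous_iff_continuousAt.2 fun x => (hyd x).continuousAt
  have hgy : g =ᵐ[volume] y := hab
  have hHeq : H = fun s => ∫ z in (0 : ℝ)..s, w z * y z := by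
    funext s
    apply intervalIntegral.integral_congr_ae
    filter_upwards [hgy] with x hx _
    rw [hx]
  refine ⟨y, fun x => b + H x, hyd, fun x => ?_, hgy⟩
  have hcw : Continuous fun z => w z * y z := hw.mul hyc
  rw [hHeq]
  exact (intervalIntegral.integral_hasDerivAt_right (hcw.intervalIntegrable _ _)
    (hcw.stronglyMeasurableAtFilter _ _) hcw.continuousAt).const_add b

end

end NLSLib
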