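import Mathlib

/-!
# Basic functions for the standing wave construction

All the functions below are explicit functions of one real variable.
-/

namespace NLSLib

open Real

noncomputable section

/-- `r x = 1/√(x²+48²)`. -/
def r (x : ℝ) : ℝ := 1 / √(x ^ 2 + 2304)

/-- `t x = x / √(x²+48²)`. -/
def t (x : ℝ) : ℝ := x * r x

/-- `η = 1 - 12 r`. -/
def et (x : ℝ) : ℝ := 1 - 12 * r x

/-- the phase, with `θ' = η²`. -/
def th (x : ℝ) : ℝ := x - 24 * arsinh (x / 48) + 3 * arctan (x / 48)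

/-- `c = cos θ`. -/
def c (x : ℝ) : ℝ := cos (th x)

/-- `s = sin θ`. -/
def s (x : ℝ) : ℝ := sin (th x)

/-- `S = θ/2 + sin θ cos θ / 2`, with `S' = η² cos² θ`. -/
def S (x : ℝ) : ℝ := th x / 2 + s x * c x / 2

/-- `D = 81 + S²`. -/
def D (x : ℝ) : ℝ := 81 + S x ^ 2

/-- `Di = 1/D`. -/
def Di (x : ℝ) : ℝ := 1 / D x

/-- `Q = S/D`. -/
def Q (x : ℝ) : ℝ := S x / D x

/-- `ω = 1/η`. -/
def om (x : ℝ) : ℝ := 1 / et x

/-! ### elementary identities and bounds -/

lemma base_pos (x : ℝ) : 0 < x ^ 2 + 2304 := by positivity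

lemma sqrt_pos' (x : ℝ) : 0 < √(x ^ 2 + 2304) := Real.sqrt_pos.2 (base_pos x)

lemma r_pos (x : ℝ) : 0 < r x := by unfold r; have := sqrt_pos' x; positivity

lemma r_sq (x : ℝ) : r x ^ 2 * (x ^ 2 + 2304) = 1 := by
  unfold r
  rw [div_pow, Real.sq_sqrt (base_pos x).le, one_pow, one_div, inv_mul_cancel₀ (base_pos x).ne']

lemma r_le (x : ℝ) : r x ≤ 1 / 48 := by
  have h := r_sq x
  have h0 := r_pos x
  by_contra hcon
  push Not at hcon
  have h1 : (1 / 48 : ℝ) ^ 2 < r x ^ 2 := by gcongr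
  nlinarith [sq_nonneg x, mul_nonneg (sq_nonneg (r x)) (sq_nonneg x)]

lemma t_sq (x : ℝ) : t x ^ 2 + 2304 * r x ^ 2 = 1 := by
  have h := r_sq x
  unfold t
  nlinarith

lemma t_abs_le (x : ℝ) : |t x| ≤ 1 := by
  have h := t_sq x
  rw [abs_le]
  constructor <;> nlinarith [sq_nonneg (r x), sq_nonneg (t x - 1), sq_nonneg (t x + 1)]

lemma et_ge (x : ℝ) : 3 / 4 ≤ et x := by
  unfold et
  have := r_le x
  linarith

lemma et_lt (x : ℝ) : et x < 1 := by
  unfold et
  have := r_pos x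
  linarith

lemma et_pos (x : ℝ) : 0 < et x := by
  have := et_ge x
  linarith

lemma om_mul (x : ℝ) : om x * et x = 1 := by
  unfold om
  rw [one_div, inv_mul_cancel₀ (et_pos x).ne']

lemma om_pos (x : ℝ) : 0 < om x := by unfold om; have := et_pos x; positivity

lemma om_le (x : ℝ) : om x ≤ 4 / 3 := by
  unfold om
  rw [div_le_div_iff₀ (et_pos x) (by norm_num)]
  have := et_ge x
  linarith

lemma D_pos (x : ℝ) : 0 < D x := by unfold D; positivity

lemma Di_pos (x : ℝ) : 0 < Di x := by unfold Di; have := D_pos x; positivity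

lemma Di_mul (x : ℝ) : Di x * D x = 1 := by
  unfold Di
  rw [one_div, inv_mul_cancel₀ (D_pos x).ne']

lemma Q_eq (x : ℝ) : Q x = S x * Di x := by unfold Q Di; ring

lemma Q_sq_le (x : ℝ) : Q x ^ 2 ≤ Di x := by
  have h := Di_mul x
  have h2 := Di_pos x
  rw [Q_eq]
  unfold D at h
  nlinarith [sq_nonneg (S x), sq_nonneg (Di x)]

lemma c_sq_add (x : ℝ) : c x ^ 2 + s x ^ 2 = 1 := by
  unfold c s
  exact Real.cos_sq_add_sin_sq _

lemma c_abs (x : ℝ) : |c x| ≤ 1 := abs_cos_le_one _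

lemma s_abs (x : ℝ) : |s x| ≤ 1 := abs_sin_le_one _

/-! ### derivatives -/

lemma hasDerivAt_r (x : ℝ) : HasDerivAt r (-(t x * r x ^ 2)) x := by
  have h1 : HasDerivAt (fun x : ℝ => x ^ 2 + 2304) (2 * x) x := by
    simpa using ((hasDerivAt_id x).pow 2).add_const (2304 : ℝ)
  have h2 := h1.sqrt (base_pos x).ne'
  have h3 := h2.inv (sqrt_pos' x).ne'
  have h4 : r = fun x => (√(x ^ 2 + 2304))⁻¹ := by
    funext x; unfold r; rw [one_div]
  rw [h4]
  refine HasDerivAt.congr_deriv h3 ?_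
  unfold t r
  have h5 := (sqrt_pos' x).ne'
  field_simp

lemma hasDerivAt_t (x : ℝ) : HasDerivAt t (r x - t x ^ 2 * r x) x := by
  have h := (hasDerivAt_id' x).mul (hasDerivAt_r x)
  refine HasDerivAt.congr_deriv h ?_
  unfold t
  ring

lemma hasDerivAt_et (x : ℝ) : HasDerivAt et (12 * t x * r x ^ 2) x := by
  have h := ((hasDerivAt_r x).const_mul (12 : ℝ)).const_sub 1
  refine HasDerivAt.congr_deriv h ?_
  ring

lemma hasDerivAt_th (x : ℝ) : HasDerivAt th (et x ^ 2) x := by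
  have h1 : HasDerivAt (fun x : ℝ => x / 48) (1 / 48) x := by
    simpa using (hasDerivAt_id x).div_const (48 : ℝ)
  have h2 := (Real.hasDerivAt_arsinh (x / 48)).comp x h1
  have h3 := (Real.hasDerivAt_arctan (x / 48)).comp x h1
  have h4 := ((hasDerivAt_id' x).sub (h2.const_mul (24 : ℝ))).add (h3.const_mul (3 : ℝ))
  have h5 : (√(1 + (x / 48) ^ 2))⁻¹ = 48 * r x := by
    unfold r
    have : 1 + (x / 48) ^ 2 = (x ^ 2 + 2304) / 48 ^ 2 := by ring
    rw [this, Real.sqrt_div (base_pos x).le, Real.sqrt_sq (by norm_num)]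
    have h5 := (sqrt_pos' x).ne'
    field_simp
  have h6 : 1 / (1 + (x / 48) ^ 2) = 2304 * r x ^ 2 := by
    have h7 : 1 + (x / 48) ^ 2 = (x ^ 2 + 2304) / 2304 := by ring
    rw [h7]
    have h8 := r_sq x
    have h9 := (base_pos x).ne'
    field_simp
    linarith
  refine HasDerivAt.congr_deriv h4 ?_
  rw [h5, h6]
  unfold et
  ring

lemma hasDerivAt_c (x : ℝ) : HasDerivAt c (-(s x * et x ^ 2)) x := by
  have h := (hasDerivAt_th x).cos
  refine HasDerivAt.congr_deriv h ?_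
  unfold s
  ring

lemma hasDerivAt_s (x : ℝ) : HasDerivAt s (c x * et x ^ 2) x := by
  have h := (hasDerivAt_th x).sin
  exact h

lemma hasDerivAt_S (x : ℝ) : HasDerivAt S (et x ^ 2 * c x ^ 2) x := by
  have h := ((hasDerivAt_th x).div_const 2).add
    (((hasDerivAt_s x).mul (hasDerivAt_c x)).div_const 2)
  refine HasDerivAt.congr_deriv h ?_
  have h1 := c_sq_add x
  have h2 : s x ^ 2 = 1 - c x ^ 2 := by linarith
  linear_combination (-et x ^ 2 / 2) * h2

lemma hasDerivAt_D (x : ℝ) : HasDerivAt D (2 * S x * (et x ^ 2 * c x ^ 2)) x := by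
  have h := ((hasDerivAt_S x).pow 2).const_add (81 : ℝ)
  refine HasDerivAt.congr_deriv h ?_
  ring

lemma hasDerivAt_Di (x : ℝ) :
    HasDerivAt Di (-(2 * Q x * (et x ^ 2 * c x ^ 2) * Di x)) x := by
  have h := (hasDerivAt_D x).inv (D_pos x).ne'
  have h4 : Di = fun x => (D x)⁻¹ := by
    funext x; unfold Di; rw [one_div]
  rw [h4]
  refine HasDerivAt.congr_deriv h ?_
  unfold Q
  have := (D_pos x).ne'
  field_simp

lemma hasDerivAt_Q (x : ℝ) :
    HasDerivAt Q (et x ^ 2 * c x ^ 2 * Di x - 2 * Q x ^ 2 * (et x ^ 2 * c x ^ 2)) x := by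
  have h := (hasDerivAt_S x).mul (hasDerivAt_Di x)
  have h4 : Q = fun x => S x * Di x := by
    funext x; exact Q_eq x
  rw [h4]
  refine HasDerivAt.congr_deriv h ?_
  simp only [Q_eq]
  ring

lemma hasDerivAt_om (x : ℝ) : HasDerivAt om (-(12 * t x * r x ^ 2 * om x ^ 2)) x := by
  have h := (hasDerivAt_et x).inv (et_pos x).ne'
  have h4 : om = fun x => (et x)⁻¹ := by
    funext x; unfold om; rw [one_div]
  rw [h4]
  refine HasDerivAt.congr_deriv h ?_
  have := (et_pos x).ne'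
  field_simp

/-! ### growth of the phase -/

lemma th_zero : th 0 = 0 := by simp [th]

lemma S_zero : S 0 = 0 := by simp [S, s, th_zero]

lemma th_neg (x : ℝ) : th (-x) = -th x := by
  unfold th
  rw [neg_div, Real.arsinh_neg, Real.arctan_neg]
  ring

lemma c_neg (x : ℝ) : c (-x) = c x := by unfold c; rw [th_neg, Real.cos_neg]

lemma s_neg (x : ℝ) : s (-x) = -s x := by unfold s; rw [th_neg, Real.sin_neg]

lemma S_neg (x : ℝ) : S (-x) = -S x := by unfold S; rw [th_neg, s_neg, c_neg]; ring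

lemma D_neg (x : ℝ) : D (-x) = D x := by unfold D; rw [S_neg]; ring

lemma Di_neg (x : ℝ) : Di (-x) = Di x := by unfold Di; rw [D_neg]

lemma Q_neg (x : ℝ) : Q (-x) = -Q x := by unfold Q; rw [D_neg, S_neg]; ring

lemma r_neg (x : ℝ) : r (-x) = r x := by unfold r; rw [neg_sq]

lemma t_neg (x : ℝ) : t (-x) = -t x := by unfold t; rw [r_neg]; ring

lemma et_neg (x : ℝ) : et (-x) = et x := by unfold et; rw [r_neg]

lemma om_neg (x : ℝ) : om (-x) = om x := by unfold om; rw [et_neg]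

lemma th_ge {x : ℝ} (hx : 0 ≤ x) : 9 / 16 * x ≤ th x := by
  have hd : ∀ y, HasDerivAt (fun y => th y - 9 / 16 * y) (et y ^ 2 - 9 / 16) y := by
    intro y
    have := (hasDerivAt_th y).sub ((hasDerivAt_id' y).const_mul (9 / 16 : ℝ))
    refine HasDerivAt.congr_deriv this ?_
    ring
  have hm : Monotone (fun y => th y - 9 / 16 * y) := by
    apply monotone_of_deriv_nonneg
    · intro y; exact (hd y).differentiableAt
    · intro y
      rw [(hd y).deriv]
      have := et_ge y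
      nlinarith
  have := hm hx
  simp only [th_zero] at this
  linarith

lemma S_ge {x : ℝ} (hx : 0 ≤ x) : 9 / 32 * x - 1 / 4 ≤ S x := by
  have h1 := th_ge hx
  have h2 := c_sq_add x
  have h3 : -(1 / 2) ≤ s x * c x := by nlinarith [sq_nonneg (s x + c x)]
  unfold S
  linarith

lemma D_ge_aux {x : ℝ} (hx : 0 ≤ x) : (x ^ 2 + 2304) / 32 ≤ D x := by
  unfold D
  by_cases h : x ≤ 16
  · nlinarith [sq_nonneg (S x)]
  · push Not at h
    have h1 := S_ge hx
    have h2 : 0 ≤ 9 / 32 * x - 1 / 4 := by linarith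
    have h3 : (9 / 32 * x - 1 / 4) ^ 2 ≤ S x ^ 2 := by gcongr
    nlinarith

lemma D_ge (x : ℝ) : (x ^ 2 + 2304) / 32 ≤ D x := by
  rcases le_total 0 x with h | h
  · exact D_ge_aux h
  · have := D_ge_aux (x := -x) (by linarith)
    rw [D_neg, neg_sq] at this
    exact this

lemma Di_le (x : ℝ) : Di x ≤ 32 * r x ^ 2 := by
  have h1 := D_ge x
  have h2 := r_sq x
  have h3 := Di_mul x
  have h4 := Di_pos x
  have h5 := r_pos x
  have h6 := base_pos x
  have h7 : r x ^ 2 = 1 / (x ^ 2 + 2304) := by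
    field_simp
    linarith
  have h8 : Di x ≤ 1 / ((x ^ 2 + 2304) / 32) := by
    unfold Di
    exact one_div_le_one_div_of_le (by positivity) h1
  rw [h7]
  calc Di x ≤ 1 / ((x ^ 2 + 2304) / 32) := h8
    _ = 32 * (1 / (x ^ 2 + 2304)) := by field_simp

lemma Q_abs_le (x : ℝ) : |Q x| ≤ 283 / 50 * r x := by
  have h1 := Q_sq_le x
  have h2 := Di_le x
  have h3 := r_pos x
  apply abs_le_of_sq_le_sq _ (by positivity)
  nlinarith [sq_nonneg (r x)]

end

end NLSLib
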