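import Pool.Agent.NLSLib.Sol

/-!
# The algebra of symbols and derivative bounds
-/

namespace NLSLib

open Real

noncomputable section

/-- Algebra of functions generated by the basic building blocks. -/
inductive Alg : (ℝ → ℝ) → Prop
  | const (a : ℝ) : Alg (fun _ => a)
  | r : Alg r
  | t : Alg t
  | c : Alg c
  | s : Alg s
  | Di : Alg Di
  | Q : Alg Q
  | om : Alg om
  | add {f g : ℝ → ℝ} : Alg f → Alg g → Alg (fun x => f x + g x)
  | mul {f g : ℝ → ℝ} : Alg f → Alg g → Alg (fun x => f x * g x)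

/-- Ideal of decaying functions. -/
inductive Dec : (ℝ → ℝ) → Prop
  | r : Dec r
  | Di : Dec Di
  | Q : Dec Q
  | add {f g : ℝ → ℝ} : Dec f → Dec g → Dec (fun x => f x + g x)
  | mul {f g : ℝ → ℝ} : Alg f → Dec g → Dec (fun x => f x * g x)

lemma Alg.congr {f g : ℝ → ℝ} (hf : Alg f) (h : ∀ x, g x = f x) : Alg g := by
  have : g = f := funext h
  rwa [this]

lemma Dec.congr {f g : ℝ → ℝ} (hf : Dec f) (h : ∀ x, g x = f x) : Dec g := by
  have : g = f := funext h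
  rwa [this]

lemma Dec.alg {f : ℝ → ℝ} (h : Dec f) : Alg f := by
  induction h with
  | r => exact Alg.r
  | Di => exact Alg.Di
  | Q => exact Alg.Q
  | add _ _ h1 h2 => exact h1.add h2
  | mul h1 _ h2 => exact h1.mul h2

lemma Alg.et : Alg et :=
  ((Alg.const 1).add ((Alg.const (-12)).mul Alg.r)).congr (fun x => by unfold NLSLib.et; ring)

lemma Alg.pow {f : ℝ → ℝ} (h : Alg f) : ∀ n : ℕ, Alg (fun x => f x ^ n)
  | 0 => (Alg.const 1).congr (fun x => by simp)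
  | n + 1 => ((Alg.pow h n).mul h).congr (fun x => by ring)

lemma Alg.neg {f : ℝ → ℝ} (h : Alg f) : Alg (fun x => -f x) :=
  ((Alg.const (-1)).mul h).congr (fun x => by ring)

lemma Alg.sub {f g : ℝ → ℝ} (hf : Alg f) (hg : Alg g) : Alg (fun x => f x - g x) :=
  (hf.add hg.neg).congr (fun x => by ring)

lemma Dec.neg {f : ℝ → ℝ} (h : Dec f) : Dec (fun x => -f x) :=
  (Dec.mul (Alg.const (-1)) h).congr (fun x => by ring)

lemma Dec.sub {f g : ℝ → ℝ} (hf : Dec f) (hg : Dec g) : Dec (fun x => f x - g x) :=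
  (hf.add hg.neg).congr (fun x => by ring)

/-- Derivatives of symbols are symbols. -/
lemma Alg.deriv {f : ℝ → ℝ} (h : Alg f) :
    ∃ f' : ℝ → ℝ, Alg f' ∧ ∀ x, HasDerivAt f (f' x) x := by
  induction h with
  | const a => exact ⟨fun _ => 0, Alg.const 0, fun x => hasDerivAt_const x a⟩
  | r => exact ⟨_, (Alg.t.mul (Alg.r.pow 2)).neg, hasDerivAt_r⟩
  | t => exact ⟨_, Alg.r.sub ((Alg.t.pow 2).mul Alg.r), hasDerivAt_t⟩
  | c => exact ⟨_, (Alg.s.mul (Alg.et.pow 2)).neg, hasDerivAt_c⟩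
  | s => exact ⟨_, Alg.c.mul (Alg.et.pow 2), hasDerivAt_s⟩
  | Di =>
    exact ⟨_, ((((Alg.const 2).mul Alg.Q).mul ((Alg.et.pow 2).mul (Alg.c.pow 2))).mul
      Alg.Di).neg, hasDerivAt_Di⟩
  | Q =>
    exact ⟨_, (((Alg.et.pow 2).mul (Alg.c.pow 2)).mul Alg.Di).sub
      (((Alg.const 2).mul (Alg.Q.pow 2)).mul ((Alg.et.pow 2).mul (Alg.c.pow 2))),
      hasDerivAt_Q⟩
  | om =>
    exact ⟨_, ((((Alg.const 12).mul Alg.t).mul (Alg.r.pow 2)).mul (Alg.om.pow 2)).neg,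
      hasDerivAt_om⟩
  | add _ _ h1 h2 =>
    obtain ⟨f', hf, hf'⟩ := h1
    obtain ⟨g', hg, hg'⟩ := h2
    exact ⟨_, hf.add hg, fun x => (hf' x).add (hg' x)⟩
  | mul a1 a2 h1 h2 =>
    obtain ⟨f', hf, hf'⟩ := h1
    obtain ⟨g', hg, hg'⟩ := h2
    exact ⟨_, (hf.mul a2).add (a1.mul hg), fun x => (hf' x).mul (hg' x)⟩

/-- Derivatives of decaying symbols are decaying symbols. -/
lemma Dec.deriv {f : ℝ → ℝ} (h : Dec f) :
    ∃ f' : ℝ → ℝ, Dec f' ∧ ∀ x, HasDerivAt f (f' x) x := by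
  induction h with
  | r =>
    exact ⟨_, (Dec.mul (Alg.t.mul Alg.r).neg Dec.r).congr (fun x => by ring), hasDerivAt_r⟩
  | Di =>
    exact ⟨_, (Dec.mul (((Alg.const 2).mul Alg.Q).mul ((Alg.et.pow 2).mul (Alg.c.pow 2))).neg
      Dec.Di).congr (fun x => by ring), hasDerivAt_Di⟩
  | Q =>
    exact ⟨_, (Dec.mul ((Alg.et.pow 2).mul (Alg.c.pow 2)) Dec.Di).sub
      ((Dec.mul (((Alg.const 2).mul Alg.Q).mul ((Alg.et.pow 2).mul (Alg.c.pow 2))) Dec.Q).congr
        (g := fun x => 2 * NLSLib.Q x ^ 2 * (NLSLib.et x ^ 2 * NLSLib.c x ^ 2)) (fun x => by ring)),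
      hasDerivAt_Q⟩
  | add _ _ h1 h2 =>
    obtain ⟨f', hf, hf'⟩ := h1
    obtain ⟨g', hg, hg'⟩ := h2
    exact ⟨_, hf.add hg, fun x => (hf' x).add (hg' x)⟩
  | mul a1 a2 h2 =>
    obtain ⟨f', hf, hf'⟩ := a1.deriv
    obtain ⟨g', hg, hg'⟩ := h2
    exact ⟨_, (Dec.mul hf a2).add (Dec.mul a1 hg), fun x => (hf' x).mul (hg' x)⟩

/-- Symbols are bounded. -/
lemma Alg.bdd {f : ℝ → ℝ} (h : Alg f) : ∃ K, 0 ≤ K ∧ ∀ x, |f x| ≤ K := by
  induction h with
  | const a => exact ⟨|a|, abs_nonneg a, fun x => le_rfl⟩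
  | r => exact ⟨1, by norm_num, fun x => by
      rw [abs_of_pos (r_pos x)]; linarith [r_le x]⟩
  | t => exact ⟨1, by norm_num, t_abs_le⟩
  | c => exact ⟨1, by norm_num, c_abs⟩
  | s => exact ⟨1, by norm_num, s_abs⟩
  | Di => exact ⟨32, by norm_num, fun x => by
      rw [abs_of_pos (Di_pos x)]
      have h1 := Di_le x
      have h2 := r_le x
      have h3 := r_pos x
      have h4 : NLSLib.r x ^ 2 ≤ 1 ^ 2 := by gcongr; linarith
      linarith⟩
  | Q => exact ⟨6, by norm_num, fun x => by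
      have h1 := Q_abs_le x
      have h2 := r_le x
      linarith⟩
  | om => exact ⟨4 / 3, by norm_num, fun x => by
      rw [abs_of_pos (om_pos x)]; exact om_le x⟩
  | add _ _ h1 h2 =>
    obtain ⟨K, hK, hf⟩ := h1
    obtain ⟨L, hL, hg⟩ := h2
    exact ⟨K + L, by positivity, fun x => (abs_add_le _ _).trans (add_le_add (hf x) (hg x))⟩
  | mul _ _ h1 h2 =>
    obtain ⟨K, hK, hf⟩ := h1
    obtain ⟨L, hL, hg⟩ := h2
    exact ⟨K * L, by positivity, fun x => by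
      rw [abs_mul]; exact mul_le_mul (hf x) (hg x) (abs_nonneg _) hK⟩

/-- `O k f` : `f = O(r^k)` uniformly on the line. -/
def O (k : ℕ) (f : ℝ → ℝ) : Prop := ∃ K, 0 ≤ K ∧ ∀ x, |f x| ≤ K * r x ^ k

lemma O.congr {k : ℕ} {f g : ℝ → ℝ} (hf : O k f) (h : ∀ x, g x = f x) : O k g := by
  have : g = f := funext h
  rwa [this]

lemma O.add {k : ℕ} {f g : ℝ → ℝ} (hf : O k f) (hg : O k g) : O k (fun x => f x + g x) := by
  obtain ⟨K, hK, hf⟩ := hf
  obtain ⟨L, hL, hg⟩ := hg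
  exact ⟨K + L, by positivity, fun x => (abs_add_le _ _).trans (by
    rw [add_mul]; exact add_le_add (hf x) (hg x))⟩

lemma O.mul {k l : ℕ} {f g : ℝ → ℝ} (hf : O k f) (hg : O l g) :
    O (k + l) (fun x => f x * g x) := by
  obtain ⟨K, hK, hf⟩ := hf
  obtain ⟨L, hL, hg⟩ := hg
  refine ⟨K * L, by positivity, fun x => ?_⟩
  have := r_pos x
  rw [abs_mul]
  calc |f x| * |g x| ≤ (K * r x ^ k) * (L * r x ^ l) :=
        mul_le_mul (hf x) (hg x) (abs_nonneg _) (by positivity)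
    _ = K * L * r x ^ (k + l) := by ring

lemma O.neg {k : ℕ} {f : ℝ → ℝ} (hf : O k f) : O k (fun x => -f x) := by
  obtain ⟨K, hK, hf⟩ := hf
  exact ⟨K, hK, fun x => by rw [abs_neg]; exact hf x⟩

lemma O.sub {k : ℕ} {f g : ℝ → ℝ} (hf : O k f) (hg : O k g) : O k (fun x => f x - g x) :=
  (hf.add hg.neg).congr (fun x => by ring)

lemma Alg.O {f : ℝ → ℝ} (h : Alg f) : O 0 f := by
  obtain ⟨K, hK, hf⟩ := h.bdd
  exact ⟨K, hK, fun x => by simpa using hf x⟩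

lemma O.weak {k l : ℕ} {f : ℝ → ℝ} (hf : O k f) (h : l ≤ k) : O l f := by
  obtain ⟨K, hK, hf⟩ := hf
  refine ⟨K, hK, fun x => (hf x).trans ?_⟩
  have h1 := r_pos x
  have h2 := r_le x
  have : r x ^ k ≤ r x ^ l := pow_le_pow_of_le_one h1.le (by linarith) h
  gcongr

lemma O.r : O 1 r := ⟨1, by norm_num, fun x => by rw [abs_of_pos (r_pos x)]; simp⟩

lemma O.Di : O 2 Di := ⟨32, by norm_num, fun x => by
  rw [abs_of_pos (Di_pos x)]; exact Di_le x⟩

lemma O.Q : O 1 Q := ⟨283 / 50, by norm_num, fun x => by simpa using Q_abs_le x⟩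

lemma O.amul {k : ℕ} {f g : ℝ → ℝ} (hf : Alg f) (hg : NLSLib.O k g) :
    NLSLib.O k (fun x => f x * g x) := by
  have := O.mul hf.O hg
  simpa using this

lemma Dec.O {f : ℝ → ℝ} (h : Dec f) : O 1 f := by
  induction h with
  | r => exact O.r
  | Di => exact O.Di.weak (by norm_num)
  | Q => exact O.Q
  | add _ _ h1 h2 => exact h1.add h2
  | mul h1 _ h2 => exact O.amul h1 h2

lemma Alg.continuous {f : ℝ → ℝ} (h : Alg f) : Continuous f := by
  obtain ⟨f', _, hf'⟩ := h.deriv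
  exact continuous_iff_continuousAt.2 fun x => (hf' x).continuousAt

lemma Alg.contDiff_nat : ∀ (n : ℕ) {f : ℝ → ℝ}, Alg f → ContDiff ℝ n f
  | 0, f, h => by
    rw [Nat.cast_zero, contDiff_zero]
    exact h.continuous
  | n + 1, f, h => by
    obtain ⟨f', hf, hf'⟩ := h.deriv
    have h1 : _root_.deriv f = f' := funext fun x => (hf' x).deriv
    rw [Nat.cast_add, Nat.cast_one, contDiff_succ_iff_deriv]
    refine ⟨fun x => (hf' x).differentiableAt, by simp, ?_⟩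
    rw [h1]
    exact Alg.contDiff_nat n hf

lemma Alg.contDiff {f : ℝ → ℝ} (h : Alg f) : ContDiff ℝ (⊤ : ℕ∞) f := by
  rw [contDiff_infty]; exact fun n => h.contDiff_nat n

lemma Dec.iteratedDeriv : ∀ (k : ℕ) {f : ℝ → ℝ}, Dec f → Dec (iteratedDeriv k f)
  | 0, f, h => by rw [iteratedDeriv_zero]; exact h
  | k + 1, f, h => by
    obtain ⟨f', hf, hf'⟩ := h.deriv
    have h1 : _root_.deriv f = f' := funext fun x => (hf' x).deriv
    rw [iteratedDeriv_succ', h1]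
    exact Dec.iteratedDeriv k hf

end

end NLSLib
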