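import Mathlib

/-!
# General facts on `y'' = w y` on the line
-/

namespace NLSLib

open Real MeasureTheory Set Filter

noncomputable section

/-- A real function whose derivative is nonnegative on `[a,∞)` is monotone there. -/
lemma mono_Ici {g g' : ℝ → ℝ} {a : ℝ} (h : ∀ x, HasDerivAt g (g' x) x)
    (h0 : ∀ x, a ≤ x → 0 ≤ g' x) {x y : ℝ} (hx : a ≤ x) (hxy : x ≤ y) : g x ≤ g y := by
  have hm : MonotoneOn g (Ici a) := by
    apply monotoneOn_of_deriv_nonneg (convex_Ici a)
    · exact fun x _ => (h x).continuousAt.continuousWithinAt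
    · exact fun x _ => (h x).differentiableAt.differentiableWithinAt
    · intro x hx
      rw [interior_Ici] at hx
      rw [(h x).deriv]
      exact h0 x (le_of_lt hx)
  exact hm hx (le_trans hx hxy) hxy

/-- Uniqueness for the Cauchy problem. -/
lemma ode_unique {y y' w : ℝ → ℝ} {C : ℝ} (hy : ∀ x, HasDerivAt y (y' x) x)
    (hy' : ∀ x, HasDerivAt y' (w x * y x) x) (hw : ∀ x, |w x| ≤ C) (x0 : ℝ)
    (h0 : y x0 = 0) (h0' : y' x0 = 0) : ∀ x, y x = 0 := by
  have hN : ∀ x, HasDerivAt (fun x => y x ^ 2 + y' x ^ 2)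
      (2 * (1 + w x) * (y x * y' x)) x := by
    intro x
    have := ((hy x).pow 2).add ((hy' x).pow 2)
    refine HasDerivAt.congr_deriv this ?_
    simp only [Nat.reduceSub, pow_one, Nat.cast_ofNat]
    ring
  have hb : ∀ x, |2 * (1 + w x) * (y x * y' x)| ≤ (1 + C) * (y x ^ 2 + y' x ^ 2) := by
    intro x
    have h1 : |y x * y' x| ≤ (y x ^ 2 + y' x ^ 2) / 2 := by
      rw [abs_le]; constructor <;> nlinarith [sq_nonneg (y x + y' x), sq_nonneg (y x - y' x)]
    have h2 : |1 + w x| ≤ 1 + C := by
      have := abs_le.1 (hw x)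
      rw [abs_le]; constructor <;> linarith [this.1, this.2]
    have h3 : 0 ≤ 1 + C := (abs_nonneg _).trans h2
    calc |2 * (1 + w x) * (y x * y' x)| = 2 * |1 + w x| * |y x * y' x| := by
          rw [abs_mul, abs_mul, abs_two]
      _ ≤ 2 * (1 + C) * ((y x ^ 2 + y' x ^ 2) / 2) := by gcongr
      _ = _ := by ring
  have key : ∀ x, y x ^ 2 + y' x ^ 2 ≤ 0 := by
    intro x
    rcases le_total x x0 with h | h
    · -- `N e^{Cx}` is monotone
      have hm : Monotone (fun x => (y x ^ 2 + y' x ^ 2) * exp ((1 + C) * x)) := by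
        have hd : ∀ x, HasDerivAt (fun x => (y x ^ 2 + y' x ^ 2) * exp ((1 + C) * x))
            ((2 * (1 + w x) * (y x * y' x) + (1 + C) * (y x ^ 2 + y' x ^ 2)) *
              exp ((1 + C) * x)) x := by
          intro x
          have e := ((hasDerivAt_id' x).const_mul (1 + C)).exp
          refine HasDerivAt.congr_deriv ((hN x).mul e) ?_
          ring
        apply monotone_of_deriv_nonneg
        · exact fun x => (hd x).differentiableAt
        · intro x
          rw [(hd x).deriv]
          have := (abs_le.1 (hb x)).1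
          apply mul_nonneg _ (exp_pos _).le
          linarith
      have h1 := hm h
      simp only [h0, h0'] at h1
      have h2 := exp_pos ((1 + C) * x)
      by_contra hcon
      push Not at hcon
      have := mul_pos hcon h2
      norm_num at h1
      linarith
    · have hm : Antitone (fun x => (y x ^ 2 + y' x ^ 2) * exp (-(1 + C) * x)) := by
        have hd : ∀ x, HasDerivAt (fun x => (y x ^ 2 + y' x ^ 2) * exp (-(1 + C) * x))
            ((2 * (1 + w x) * (y x * y' x) - (1 + C) * (y x ^ 2 + y' x ^ 2)) *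
              exp (-(1 + C) * x)) x := by
          intro x
          have e := ((hasDerivAt_id' x).const_mul (-(1 + C))).exp
          refine HasDerivAt.congr_deriv ((hN x).mul e) ?_
          ring
        apply antitone_of_deriv_nonpos
        · exact fun x => (hd x).differentiableAt
        · intro x
          rw [(hd x).deriv]
          have := (abs_le.1 (hb x)).2
          apply mul_nonpos_of_nonpos_of_nonneg _ (exp_pos _).le
          linarith
      have h1 := hm h
      simp only [h0, h0'] at h1
      have h2 := exp_pos (-(1 + C) * x)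
      by_contra hcon
      push Not at hcon
      have := mul_pos hcon h2
      norm_num at h1
      norm_num at this
      linarith
  intro x
  have := key x
  nlinarith [sq_nonneg (y x), sq_nonneg (y' x)]

/-- A function bounded below by `1` near infinity is not integrable. -/
lemma not_integrable_of_one_le {g : ℝ → ℝ} {X : ℝ} (h : ∀ x, X ≤ x → 1 ≤ g x) :
    ¬ IntegrableOn g (Ioi 0) := by
  intro hg
  have h1 : IntegrableOn g (Ioi (max X 0)) := hg.mono_set (Ioi_subset_Ioi (le_max_right _ _))
  have h2 : IntegrableOn (fun _ : ℝ => (1 : ℝ)) (Ioi (max X 0)) := by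
    refine Integrable.mono' h1 aestronglyMeasurable_const ?_
    refine (ae_restrict_iff' measurableSet_Ioi).2 (Eventually.of_forall fun x hx => ?_)
    have : X ≤ x := (le_max_left _ _).trans (le_of_lt hx)
    simpa using h x this
  rw [integrableOn_const_iff] at h2
  simp at h2

/-- If `y y' ≥ δ > 0` near infinity then `y` is not square integrable. -/
lemma not_L2_of_prod {y y' : ℝ → ℝ} (hy : ∀ x, HasDerivAt y (y' x) x) {X δ : ℝ} (hδ : 0 < δ)
    (h : ∀ x, X ≤ x → δ ≤ y x * y' x) : ¬ IntegrableOn (fun x => y x ^ 2) (Ioi 0) := by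
  have hd : ∀ x, HasDerivAt (fun x => y x ^ 2 - 2 * δ * x) (2 * (y x * y' x) - 2 * δ) x := by
    intro x
    have := ((hy x).pow 2).sub ((hasDerivAt_id' x).const_mul (2 * δ))
    refine HasDerivAt.congr_deriv this ?_
    simp only [Nat.reduceSub, pow_one, Nat.cast_ofNat]
    ring
  have hm : ∀ x, X ≤ x → y X ^ 2 - 2 * δ * X ≤ y x ^ 2 - 2 * δ * x := by
    intro x hx
    exact mono_Ici hd (a := X) (fun x hx => by linarith [h x hx]) le_rfl hx
  apply not_integrable_of_one_le (X := X + 1 / (2 * δ))
  intro x hx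
  have h1 : 0 < 1 / (2 * δ) := by positivity
  have h2 := hm x (by linarith)
  have h3 : 2 * δ * (1 / (2 * δ)) ≤ 2 * δ * (x - X) := by
    apply mul_le_mul_of_nonneg_left _ (by positivity)
    linarith
  have h4 : 2 * δ * (1 / (2 * δ)) = 1 := by field_simp
  nlinarith [sq_nonneg (y X)]

/-- If `y² + y'²` stays away from zero near infinity, `y` is not square integrable. -/
lemma not_L2_of_energy {y y' w : ℝ → ℝ} {C : ℝ} (hy : ∀ x, HasDerivAt y (y' x) x)
    (hy' : ∀ x, HasDerivAt y' (w x * y x) x) (hw : ∀ x, |w x| ≤ C) {X d : ℝ} (hd : 0 < d)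
    (h : ∀ x, X ≤ x → d ≤ y x ^ 2 + y' x ^ 2) :
    ¬ IntegrableOn (fun x => y x ^ 2) (Ioi 0) := by
  intro hint
  set X0 := max X 0 with hX0
  have hXX0 : X ≤ X0 := le_max_left _ _
  have hC : 0 ≤ C := (abs_nonneg _).trans (hw 0)
  have hcont : Continuous (fun x => y x ^ 2) := by
    have : Continuous y := continuous_iff_continuousAt.2 fun x => (hy x).continuousAt
    fun_prop
  -- the primitive
  set G : ℝ → ℝ := fun x => ∫ z in X0..x, y z ^ 2 with hG
  have hGd : ∀ x, HasDerivAt G (y x ^ 2) x := fun x =>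
    intervalIntegral.integral_hasDerivAt_right (hcont.intervalIntegrable _ _)
      (hcont.stronglyMeasurableAtFilter _ _) hcont.continuousAt
  set M : ℝ := ∫ z in Ioi 0, y z ^ 2 with hM
  have hGM : ∀ x, X0 ≤ x → G x ≤ M := by
    intro x hx
    rw [hG, hM]
    simp only
    rw [intervalIntegral.integral_of_le hx]
    apply setIntegral_mono_set hint
    · exact Eventually.of_forall fun z => sq_nonneg _
    · apply Eventually.of_forall
      intro z hz
      exact lt_of_le_of_lt (le_max_right _ _) hz.1
  have hH : ∀ x, HasDerivAt (fun x => y x * y' x - d * x + (1 + C) * G x)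
      (y' x ^ 2 + w x * y x ^ 2 - d + (1 + C) * y x ^ 2) x := by
    intro x
    have := (((hy x).mul (hy' x)).sub ((hasDerivAt_id' x).const_mul d)).add
      ((hGd x).const_mul (1 + C))
    refine HasDerivAt.congr_deriv this ?_
    ring
  have hHm : ∀ x, X0 ≤ x → y X0 * y' X0 - d * X0 ≤ y x * y' x - d * x + (1 + C) * G x := by
    intro x hx
    have h1 := mono_Ici hH (a := X0) (fun x hx => by
      have h1 := h x (hXX0.trans hx)
      have h2 := (abs_le.1 (hw x)).1
      have h3 : -C * y x ^ 2 ≤ w x * y x ^ 2 := by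
        apply mul_le_mul_of_nonneg_right _ (sq_nonneg _)
        linarith
      nlinarith) le_rfl hx
    have h2 : G X0 = 0 := by rw [hG]; simp
    simp only [h2] at h1
    linarith
  have hMn : 0 ≤ M := by
    rw [hM]
    exact setIntegral_nonneg measurableSet_Ioi fun z _ => sq_nonneg _
  apply not_L2_of_prod hy (X := X0 + (1 + (1 + C) * M + |y X0 * y' X0|) / d) one_pos _ hint
  intro x hx
  have h5 : 0 ≤ (1 + (1 + C) * M + |y X0 * y' X0|) / d := by positivity
  have h6 : X0 ≤ x := by linarith
  have h7 := hHm x h6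
  have h8 := hGM x h6
  have h9 : (1 + C) * G x ≤ (1 + C) * M := by gcongr
  have h10 : d * ((1 + (1 + C) * M + |y X0 * y' X0|) / d) ≤ d * (x - X0) := by
    apply mul_le_mul_of_nonneg_left _ hd.le
    linarith
  have h11 : d * ((1 + (1 + C) * M + |y X0 * y' X0|) / d) =
      1 + (1 + C) * M + |y X0 * y' X0| := by field_simp
  have h12 := neg_abs_le (y X0 * y' X0)
  nlinarith

/-- Reflection of a solution. -/
lemma reflect {y y' w : ℝ → ℝ} (hy : ∀ x, HasDerivAt y (y' x) x)
    (hy' : ∀ x, HasDerivAt y' (w x * y x) x) :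
    (∀ x, HasDerivAt (fun x => y (-x)) (-(y' (-x))) x) ∧
    (∀ x, HasDerivAt (fun x => -(y' (-x))) (w (-x) * y (-x)) x) := by
  constructor
  · intro x
    have := (hy (-x)).comp x (hasDerivAt_neg' x)
    refine HasDerivAt.congr_deriv this ?_
    ring
  · intro x
    have := ((hy' (-x)).comp x (hasDerivAt_neg' x)).neg
    refine HasDerivAt.congr_deriv this ?_
    ring

lemma integrable_reflect {y : ℝ → ℝ} (h : Integrable (fun x => y x ^ 2)) :
    Integrable (fun x => y (-x) ^ 2) := h.comp_neg

/-- No square integrable solution when `w > 0`. -/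
lemma no_L2_of_pos {y y' w : ℝ → ℝ} (hy : ∀ x, HasDerivAt y (y' x) x)
    (hy' : ∀ x, HasDerivAt y' (w x * y x) x) (hw : ∀ x, 0 < w x)
    (hint : Integrable (fun x => y x ^ 2)) : ∀ x, y x = 0 := by
  -- `F = y y'` is monotone
  have hF : ∀ {y y' w : ℝ → ℝ}, (∀ x, HasDerivAt y (y' x) x) →
      (∀ x, HasDerivAt y' (w x * y x) x) →
      ∀ x, HasDerivAt (fun x => y x * y' x) (y' x ^ 2 + w x * y x ^ 2) x := by
    intro y y' w hy hy' x
    refine HasDerivAt.congr_deriv ((hy x).mul (hy' x)) ?_
    ring
  have hmon : ∀ {y y' w : ℝ → ℝ}, (∀ x, HasDerivAt y (y' x) x) →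
      (∀ x, HasDerivAt y' (w x * y x) x) → (∀ x, 0 < w x) →
      Integrable (fun x => y x ^ 2) → ∀ x, y x * y' x ≤ 0 := by
    intro y y' w hy hy' hw hint x
    by_contra hcon
    push Not at hcon
    apply not_L2_of_prod hy (X := x) hcon _ hint.integrableOn
    intro z hz
    exact mono_Ici (hF hy hy') (a := x) (fun x _ => by
      have := hw x
      positivity) le_rfl hz
  have h1 := hmon hy hy' hw hint
  have h2 := reflect hy hy'
  have h3 := hmon h2.1 h2.2 (fun x => hw (-x)) (integrable_reflect hint)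
  have h4 : ∀ x, y x * y' x = 0 := by
    intro x
    apply le_antisymm (h1 x)
    have := h3 (-x)
    simp only [neg_neg] at this
    linarith
  intro x
  have h5 : (fun x => y x * y' x) = fun _ => 0 := funext h4
  have h6 := hF hy hy' x
  rw [h5] at h6
  have h7 := h6.unique (hasDerivAt_const x (0 : ℝ))
  have h8 := hw x
  have h9 : w x * y x ^ 2 ≤ 0 := by nlinarith [sq_nonneg (y' x)]
  by_contra hne
  have : 0 < w x * y x ^ 2 := by positivity
  linarith

end

end NLSLib
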