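import Pool.Agent.NLSLib.Sol
import Pool.Agent.NLSLib.Ode

/-!
# The resonant energy `λ = 1`
-/

namespace NLSLib

open Real MeasureTheory Set Filter

noncomputable section

/-- a primitive of `r²`. -/
def aa (x : ℝ) : ℝ := arctan (x / 48) / 48

lemma hasDerivAt_aa (x : ℝ) : HasDerivAt aa (r x ^ 2) x := by
  have h1 : HasDerivAt (fun x : ℝ => x / 48) (1 / 48) x := by
    simpa using (hasDerivAt_id x).div_const (48 : ℝ)
  have h3 := ((Real.hasDerivAt_arctan (x / 48)).comp x h1).div_const (48 : ℝ)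
  refine HasDerivAt.congr_deriv h3 ?_
  have h7 : 1 + (x / 48) ^ 2 = (x ^ 2 + 2304) / 2304 := by ring
  rw [h7]
  have h8 := r_sq x
  have h9 := (base_pos x).ne'
  field_simp
  linarith

lemma aa_zero : aa 0 = 0 := by simp [aa]

lemma aa_le (x : ℝ) : aa x ≤ 1 / 30 := by
  unfold aa
  have h1 := Real.arctan_lt_pi_div_two (x / 48)
  have h2 := Real.pi_lt_d2
  linarith

lemma aa_ge (x : ℝ) : -(1 / 30) ≤ aa x := by
  unfold aa
  have h1 := Real.neg_pi_div_two_lt_arctan (x / 48)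
  have h2 := Real.pi_lt_d2
  linarith

lemma t_nonneg {x : ℝ} (hx : 0 ≤ x) : 0 ≤ t x := by
  unfold t
  have := r_pos x
  positivity

lemma t_zero : t 0 = 0 := by simp [t]

/-- the size constant -/
def Bc : ℝ := 3 * 10 ^ 8

/-- primitive of `u1⁴`. -/
def U4 (x : ℝ) : ℝ := ∫ z in (0 : ℝ)..x, u1 z ^ 4

lemma continuous_u1 : Continuous u1 :=
  continuous_iff_continuousAt.2 fun x => (hasDerivAt_u1 x).continuousAt

lemma continuous_u1' : Continuous u1' :=
  continuous_iff_continuousAt.2 fun x => (hasDerivAt_u1' x).continuousAt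

lemma hasDerivAt_U4 (x : ℝ) : HasDerivAt U4 (u1 x ^ 4) x := by
  have h : Continuous (fun x => u1 x ^ 4) := by
    have := continuous_u1
    fun_prop
  exact intervalIntegral.integral_hasDerivAt_right (h.intervalIntegrable _ _)
    (h.stronglyMeasurableAtFilter _ _) h.continuousAt

lemma U4_zero : U4 0 = 0 := by simp [U4]

lemma U4_one_pos : 0 < U4 1 := by
  unfold U4
  have h : Continuous (fun x => u1 x ^ 4) := by
    have := continuous_u1
    fun_prop
  apply intervalIntegral.integral_pos (by norm_num) h.continuousOn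
  · intro x _
    positivity
  · exact ⟨0, by norm_num, by have := u1_zero_pos; positivity⟩

lemma uv_abs (x : ℝ) : |u1 x * v1 x| ≤ 17200 := by
  have h1 := u1_abs x
  have h2 := v1_abs x
  have h3 := r_pos x
  rw [abs_mul]
  calc |u1 x| * |v1 x| ≤ (43 * r x ^ 2) * |v1 x| := by gcongr
    _ = 43 * (|v1 x| * r x ^ 2) := by ring
    _ ≤ 43 * 400 := by gcongr
    _ = 17200 := by norm_num

lemma bound1 (x : ℝ) : |u1 x ^ 3 * v1 x| ≤ Bc * r x ^ 4 := by
  have h1 := u1_abs x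
  have h2 := uv_abs x
  have h3 := r_pos x
  have e : u1 x ^ 3 * v1 x = u1 x ^ 2 * (u1 x * v1 x) := by ring
  rw [e, abs_mul, abs_pow]
  calc |u1 x| ^ 2 * |u1 x * v1 x| ≤ (43 * r x ^ 2) ^ 2 * 17200 := by gcongr
    _ = 43 ^ 2 * 17200 * r x ^ 4 := by ring
    _ ≤ Bc * r x ^ 4 := by
      apply mul_le_mul_of_nonneg_right _ (by positivity)
      unfold Bc; norm_num

lemma bound2 (x : ℝ) : u1 x ^ 2 * v1 x ^ 2 ≤ Bc := by
  have h2 := uv_abs x
  have e : u1 x ^ 2 * v1 x ^ 2 = |u1 x * v1 x| ^ 2 := by rw [sq_abs]; ring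
  rw [e]
  calc |u1 x * v1 x| ^ 2 ≤ 17200 ^ 2 := by gcongr
    _ ≤ Bc := by unfold Bc; norm_num

lemma bound3 (x : ℝ) : u1 x ^ 4 ≤ Bc * r x ^ 8 := by
  have h1 := u1_abs x
  have h3 := r_pos x
  have e : u1 x ^ 4 = |u1 x| ^ 4 := by rw [← abs_pow, abs_of_nonneg (by positivity)]
  rw [e]
  calc |u1 x| ^ 4 ≤ (43 * r x ^ 2) ^ 4 := by gcongr
    _ = 43 ^ 4 * r x ^ 8 := by ring
    _ ≤ Bc * r x ^ 8 := by
      apply mul_le_mul_of_nonneg_right _ (by positivity)
      unfold Bc; norm_num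

section
variable {e : ℝ} {y y' : ℝ → ℝ}

/-- first coordinate of variation of constants -/
def al (y y' : ℝ → ℝ) (x : ℝ) : ℝ := y x * v1' x - y' x * v1 x

/-- second coordinate of variation of constants -/
def be (y y' : ℝ → ℝ) (x : ℝ) : ℝ := u1 x * y' x - u1' x * y x

lemma y_eq (y y' : ℝ → ℝ) (x : ℝ) : y x = al y y' x * u1 x + be y y' x * v1 x := by
  have h := wronsk x
  unfold al be
  linear_combination (-y x) * h

lemma y'_eq (y y' : ℝ → ℝ) (x : ℝ) : y' x = al y y' x * u1' x + be y y' x * v1' x := by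
  have h := wronsk x
  unfold al be
  linear_combination (-y' x) * h

lemma hasDerivAt_al (hy : ∀ x, HasDerivAt y (y' x) x)
    (hy' : ∀ x, HasDerivAt y' ((W x - e * u1 x ^ 2 - 1) * y x) x) (x : ℝ) :
    HasDerivAt (al y y')
      (e * (u1 x ^ 3 * v1 x * al y y' x + u1 x ^ 2 * v1 x ^ 2 * be y y' x)) x := by
  have h := ((hy x).mul (hasDerivAt_v1' x)).sub ((hy' x).mul (hasDerivAt_v1 x))
  refine HasDerivAt.congr_deriv h ?_
  have h2 := y_eq y y' x
  linear_combination (e * u1 x ^ 2 * v1 x) * h2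

lemma hasDerivAt_be (hy : ∀ x, HasDerivAt y (y' x) x)
    (hy' : ∀ x, HasDerivAt y' ((W x - e * u1 x ^ 2 - 1) * y x) x) (x : ℝ) :
    HasDerivAt (be y y')
      (-(e * (u1 x ^ 4 * al y y' x + u1 x ^ 3 * v1 x * be y y' x))) x := by
  have h := ((hasDerivAt_u1 x).mul (hy' x)).sub ((hasDerivAt_u1' x).mul (hy x))
  refine HasDerivAt.congr_deriv h ?_
  have h2 := y_eq y y' x
  linear_combination (-e * u1 x ^ 3) * h2

/-- Energy inequality in the resonant case. -/
lemma res_energy (he : 0 < e) (hy : ∀ x, HasDerivAt y (y' x) x)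
    (hy' : ∀ x, HasDerivAt y' ((W x - e * u1 x ^ 2 - 1) * y x) x)
    (hk : e * Bc ≤ 1 / 100) {x : ℝ} (hx : 0 ≤ x) :
    (al y y' x * r x ^ 2) ^ 2 + be y y' x ^ 2 ≤
      4 * ((al y y' 0 * r 0 ^ 2) ^ 2 + be y y' 0 ^ 2) := by
  set A := al y y' with hA
  set B := be y y' with hB
  have hk0 : 0 ≤ e * Bc := by unfold Bc; positivity
  have hAd := hasDerivAt_al hy hy'
  have hBd := hasDerivAt_be hy hy'
  rw [← hA, ← hB] at hAd hBd
  have hd : ∀ x, HasDerivAt
      (fun x => -(((A x * r x ^ 2) ^ 2 + B x ^ 2) * exp (-(4 * (e * Bc)) * aa x)))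
      (-((2 * (A x * r x ^ 2) * ((e * (u1 x ^ 3 * v1 x * A x + u1 x ^ 2 * v1 x ^ 2 * B x))
          * r x ^ 2 - 2 * A x * t x * r x ^ 3)
        + 2 * B x * (-(e * (u1 x ^ 4 * A x + u1 x ^ 3 * v1 x * B x)))
        - 4 * (e * Bc) * r x ^ 2 * ((A x * r x ^ 2) ^ 2 + B x ^ 2))
        * exp (-(4 * (e * Bc)) * aa x))) x := by
    intro x
    have h1 := ((((hAd x).mul ((hasDerivAt_r x).pow 2)).pow 2).add ((hBd x).pow 2)).mul
      (((hasDerivAt_aa x).const_mul (-(4 * (e * Bc)))).exp)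
    refine HasDerivAt.congr_deriv h1.neg ?_
    simp only [Pi.pow_apply, Pi.mul_apply, Pi.add_apply, Nat.reduceSub, pow_one, Nat.cast_ofNat]
    ring
  have hm := mono_Ici hd (a := 0) (fun x hx => by
    have h0 := exp_pos (-(4 * (e * Bc)) * aa x)
    have hr := r_pos x
    have hr1 := r_le x
    have ht := t_nonneg hx
    have k1 := bound1 x
    have k2 := bound2 x
    have k3 := bound3 x
    have hB0 : (0 : ℝ) ≤ Bc := by unfold Bc; positivity
    -- estimate the derivative of the energy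
    have e1 : |A x * r x ^ 2| = |A x| * r x ^ 2 := by
      rw [abs_mul, abs_of_pos (by positivity : 0 < r x ^ 2)]
    have c1 : 2 * (A x * r x ^ 2) * ((e * (u1 x ^ 3 * v1 x * A x + u1 x ^ 2 * v1 x ^ 2 * B x))
          * r x ^ 2) ≤ 2 * (|A x| * r x ^ 2) * ((e * (Bc * r x ^ 4 * |A x| + Bc * |B x|))
          * r x ^ 2) := by
      refine (le_abs_self _).trans ?_
      rw [abs_mul, abs_mul, abs_two, e1, abs_mul, abs_of_pos (by positivity : 0 < r x ^ 2),
        abs_mul, abs_of_pos he]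
      gcongr
      refine (abs_add_le _ _).trans ?_
      rw [abs_mul, abs_mul (u1 x ^ 2 * v1 x ^ 2),
        abs_of_nonneg (by positivity : 0 ≤ u1 x ^ 2 * v1 x ^ 2)]
      gcongr
    have c2 : 0 ≤ 2 * (A x * r x ^ 2) * (2 * A x * t x * r x ^ 3) := by
      have : 2 * (A x * r x ^ 2) * (2 * A x * t x * r x ^ 3) =
        4 * (A x ^ 2 * t x * r x ^ 5) := by ring
      rw [this]; positivity
    have c3 : 2 * B x * (-(e * (u1 x ^ 4 * A x + u1 x ^ 3 * v1 x * B x))) ≤
        2 * |B x| * (e * (Bc * r x ^ 8 * |A x| + Bc * r x ^ 4 * |B x|)) := by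
      refine (le_abs_self _).trans ?_
      rw [abs_mul, abs_mul, abs_two, abs_neg, abs_mul, abs_of_pos he]
      gcongr
      refine (abs_add_le _ _).trans ?_
      rw [abs_mul, abs_mul (u1 x ^ 3 * v1 x), abs_of_nonneg (by positivity : 0 ≤ u1 x ^ 4)]
      gcongr
    set P := |A x| * r x ^ 2 with hP
    set R := |B x| with hR
    have hP0 : 0 ≤ P := by positivity
    have hR0 : 0 ≤ R := abs_nonneg _
    have e2 : (A x * r x ^ 2) ^ 2 + B x ^ 2 = P ^ 2 + R ^ 2 := by
      rw [← e1, hR, sq_abs, sq_abs]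
    have c1' : 2 * P * ((e * (Bc * r x ^ 4 * |A x| + Bc * R)) * r x ^ 2) =
        2 * (e * Bc) * r x ^ 2 * (r x ^ 2 * P ^ 2 + P * R) := by
      rw [hP]; ring
    have c3' : 2 * R * (e * (Bc * r x ^ 8 * |A x| + Bc * r x ^ 4 * R)) =
        2 * (e * Bc) * r x ^ 2 * (r x ^ 4 * (P * R) + r x ^ 2 * R ^ 2) := by
      rw [hP]; ring
    rw [c1'] at c1
    rw [c3'] at c3
    have r2 : r x ^ 2 ≤ 1 := by nlinarith
    have r4 : r x ^ 4 ≤ 1 := by
      have : r x ^ 4 = r x ^ 2 * r x ^ 2 := by ring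
      rw [this]; nlinarith [sq_nonneg (r x)]
    have d1 : r x ^ 2 * P ^ 2 ≤ 1 * P ^ 2 := by gcongr
    have d2 : r x ^ 4 * (P * R) ≤ 1 * (P * R) := by gcongr
    have d3 : r x ^ 2 * R ^ 2 ≤ 1 * R ^ 2 := by gcongr
    have d4 : (r x ^ 2 * P ^ 2 + P * R) + (r x ^ 4 * (P * R) + r x ^ 2 * R ^ 2) ≤
        2 * (P ^ 2 + R ^ 2) := by nlinarith [sq_nonneg (P - R)]
    have d5 : 2 * (e * Bc) * r x ^ 2 * ((r x ^ 2 * P ^ 2 + P * R) +
        (r x ^ 4 * (P * R) + r x ^ 2 * R ^ 2)) ≤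
        2 * (e * Bc) * r x ^ 2 * (2 * (P ^ 2 + R ^ 2)) := by gcongr
    rw [neg_nonneg]
    apply mul_nonpos_of_nonpos_of_nonneg _ h0.le
    rw [e2]
    nlinarith) le_rfl hx
  simp only [aa_zero, mul_zero, exp_zero, mul_one] at hm
  have h1 : 1 / 4 ≤ exp (-(4 * (e * Bc)) * aa x) := by
    have h2 : -(4 * (e * Bc)) * aa x ≥ -1 := by
      have := aa_le x
      nlinarith
    have h3 := Real.add_one_le_exp (-(4 * (e * Bc)) * aa x)
    have h4 : -(4 * (e * Bc)) * aa x ≥ -(1 / 2) := by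
      have := aa_le x
      nlinarith
    linarith
  have h2 : 0 ≤ (A x * r x ^ 2) ^ 2 + B x ^ 2 := by positivity
  nlinarith

/-- The half-line analysis in the resonant case. -/
lemma res_half (he : 0 < e) (hy : ∀ x, HasDerivAt y (y' x) x)
    (hy' : ∀ x, HasDerivAt y' ((W x - e * u1 x ^ 2 - 1) * y x) x)
    (hk : e * Bc ≤ 1 / 100) (hk2 : 8 * Bc * (e * Bc) / 30 ≤ U4 1 / 4)
    {C : ℝ} (hw : ∀ x, |W x - e * u1 x ^ 2 - 1| ≤ C)
    (hint : IntegrableOn (fun x => y x ^ 2) (Ioi 0)) :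
    (al y y' 0 = 0 ∧ be y y' 0 = 0) ∨ 0 < al y y' 0 * be y y' 0 := by
  set A := al y y' with hA
  set B := be y y' with hB
  have hB0 : (0 : ℝ) < Bc := by unfold Bc; positivity
  have hk0 : 0 < e * Bc := by positivity
  set κ := e * Bc with hκ
  have hAd := hasDerivAt_al hy hy'
  have hBd := hasDerivAt_be hy hy'
  rw [← hA, ← hB] at hAd hBd
  -- the size `M`
  set M := 2 * √((A 0 * r 0 ^ 2) ^ 2 + B 0 ^ 2) with hM
  have hM0 : 0 ≤ M := by positivity
  have hMsq : M ^ 2 = 4 * ((A 0 * r 0 ^ 2) ^ 2 + B 0 ^ 2) := by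
    rw [hM, mul_pow, Real.sq_sqrt (by positivity)]; norm_num
  have hen : ∀ x, 0 ≤ x → |A x| * r x ^ 2 ≤ M ∧ |B x| ≤ M := by
    intro x hx
    have h1 := res_energy he hy hy' hk hx
    rw [← hA, ← hB, ← hMsq] at h1
    constructor
    · have h2 : |A x * r x ^ 2| ≤ M := by
        apply abs_le_of_sq_le_sq _ hM0
        nlinarith [sq_nonneg (B x)]
      rwa [abs_mul, abs_of_pos (by have := r_pos x; positivity : 0 < r x ^ 2)] at h2
    · apply abs_le_of_sq_le_sq _ hM0
      nlinarith [sq_nonneg (A x * r x ^ 2)]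
  -- bound on `B'`
  have hB' : ∀ x, 0 ≤ x →
      |-(e * (u1 x ^ 4 * A x + u1 x ^ 3 * v1 x * B x))| ≤ 2 * κ * M * r x ^ 3 := by
    intro x hx
    obtain ⟨h1, h2⟩ := hen x hx
    have hr := r_pos x
    have hr1 := r_le x
    have k1 := bound1 x
    have k3 := bound3 x
    rw [abs_neg, abs_mul, abs_of_pos he]
    have c1 : |u1 x ^ 4 * A x + u1 x ^ 3 * v1 x * B x| ≤
        Bc * r x ^ 8 * |A x| + Bc * r x ^ 4 * |B x| := by
      refine (abs_add_le _ _).trans ?_
      rw [abs_mul, abs_mul (u1 x ^ 3 * v1 x), abs_of_nonneg (by positivity : 0 ≤ u1 x ^ 4)]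
      gcongr
    have c2 : Bc * r x ^ 8 * |A x| + Bc * r x ^ 4 * |B x| ≤ Bc * (2 * M * r x ^ 3) := by
      have e1 : Bc * r x ^ 8 * |A x| = Bc * (r x ^ 3 * (r x ^ 3 * (|A x| * r x ^ 2))) := by ring
      have e2 : Bc * r x ^ 4 * |B x| = Bc * (r x ^ 3 * (r x * |B x|)) := by ring
      rw [e1, e2]
      have r3 : r x ^ 3 ≤ 1 := pow_le_one₀ hr.le (by linarith)
      have d1 : r x ^ 3 * (|A x| * r x ^ 2) ≤ 1 * M := by gcongr
      have d2 : r x * |B x| ≤ 1 * M := by
        apply mul_le_mul (by linarith) h2 (abs_nonneg _) (by norm_num)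
      have d3 : r x ^ 3 * (r x ^ 3 * (|A x| * r x ^ 2)) + r x ^ 3 * (r x * |B x|) ≤
          2 * M * r x ^ 3 := by
        have : 0 < r x ^ 3 := by positivity
        nlinarith
      nlinarith
    calc e * |u1 x ^ 4 * A x + u1 x ^ 3 * v1 x * B x| ≤ e * (Bc * (2 * M * r x ^ 3)) := by
          gcongr
          exact c1.trans c2
      _ = 2 * κ * M * r x ^ 3 := by rw [hκ]; ring
  -- monotone comparison with `t`
  have htd : ∀ x, HasDerivAt t (2304 * r x ^ 3) x := by
    intro x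
    refine HasDerivAt.congr_deriv (hasDerivAt_t x) ?_
    have := t_sq x
    have e1 : r x - t x ^ 2 * r x = r x * (1 - t x ^ 2) := by ring
    have e2 : 1 - t x ^ 2 = 2304 * r x ^ 2 := by linarith
    rw [e1, e2]; ring
  have hcmp : ∀ x0 x, 0 ≤ x0 → x0 ≤ x →
      |B x - B x0| ≤ 2 * κ * M / 2304 * (t x - t x0) := by
    intro x0 x h0 hx
    have hd1 : ∀ x, HasDerivAt (fun x => 2 * κ * M / 2304 * t x - B x)
        (2 * κ * M / 2304 * (2304 * r x ^ 3) -
          -(e * (u1 x ^ 4 * A x + u1 x ^ 3 * v1 x * B x))) x := fun x =>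
      ((htd x).const_mul _).sub (hBd x)
    have hd2 : ∀ x, HasDerivAt (fun x => 2 * κ * M / 2304 * t x + B x)
        (2 * κ * M / 2304 * (2304 * r x ^ 3) +
          -(e * (u1 x ^ 4 * A x + u1 x ^ 3 * v1 x * B x))) x := fun x =>
      ((htd x).const_mul _).add (hBd x)
    have m1 := mono_Ici hd1 (a := x0) (fun z hz => by
      have := (abs_le.1 (hB' z (h0.trans hz))).2
      linarith) le_rfl hx
    have m2 := mono_Ici hd2 (a := x0) (fun z hz => by
      have := (abs_le.1 (hB' z (h0.trans hz))).1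
      linarith) le_rfl hx
    rw [abs_le]
    constructor <;> linarith
  -- decay of `B`
  have hBdec : ∀ x, 0 ≤ x → |B x| ≤ 2 * κ * M / 2304 * (1 - t x) := by
    intro x0 h0
    by_contra hcon
    push Not at hcon
    set δ := |B x0| - 2 * κ * M / 2304 * (1 - t x0) with hδ
    have hδ0 : 0 < δ := by rw [hδ]; linarith
    refine not_L2_of_energy hy hy' hw (X := x0) (d := δ ^ 2 / 2) (by positivity) ?_ hint
    intro x hx
    have h1 := hcmp x0 x h0 hx
    have h2 : |B x0| ≤ |B x| + |B x - B x0| := by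
      have := abs_sub_abs_le_abs_sub (B x0) (B x)
      rw [abs_sub_comm] at this
      linarith
    have h3 := (abs_le.1 (t_abs_le x)).2
    have h4 : 0 ≤ 2 * κ * M / 2304 := by positivity
    have h5 : 2 * κ * M / 2304 * (t x - t x0) ≤ 2 * κ * M / 2304 * (1 - t x0) := by
      gcongr
    have h6 : δ ≤ |B x| := by rw [hδ]; linarith
    have h7 : |B x| ≤ |y x| + |y' x| := by
      have k1 := u1_abs x
      have k2 := u1'_abs x
      have k3 := r_le x
      have k4 := r_pos x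
      have k5 : r x ^ 2 ≤ (1 / 48) ^ 2 := by gcongr
      have k6 : |u1 x| ≤ 1 := by linarith
      have k7 : |u1' x| ≤ 1 := by linarith
      rw [hB]; unfold be
      refine (abs_sub _ _).trans ?_
      rw [abs_mul, abs_mul]
      have := mul_le_mul_of_nonneg_right k6 (abs_nonneg (y' x))
      have := mul_le_mul_of_nonneg_right k7 (abs_nonneg (y x))
      linarith
    have h8 : δ ^ 2 ≤ (|y x| + |y' x|) ^ 2 := by
      have := h6.trans h7
      gcongr
    have h9 := sq_abs (y x)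
    have h10 := sq_abs (y' x)
    nlinarith [sq_nonneg (|y x| - |y' x|)]
  have hBdec2 : ∀ x, 0 ≤ x → |B x| ≤ 2 * κ * M * r x ^ 2 := by
    intro x hx
    have h1 := hBdec x hx
    have h2 := t_nonneg hx
    have h3 := (abs_le.1 (t_abs_le x)).2
    have h4 := t_sq x
    have h5 : 1 - t x ≤ 2304 * r x ^ 2 := by nlinarith
    have h6 : 2 * κ * M / 2304 * (1 - t x) ≤ 2 * κ * M / 2304 * (2304 * r x ^ 2) := by
      gcongr
    linarith
  -- control of `A`
  have hA' : ∀ x, 0 ≤ x →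
      |e * (u1 x ^ 3 * v1 x * A x + u1 x ^ 2 * v1 x ^ 2 * B x)| ≤ 2 * κ * M * r x ^ 2 := by
    intro x hx
    obtain ⟨h1, h2⟩ := hen x hx
    have h3 := hBdec2 x hx
    have hr := r_pos x
    have hr1 := r_le x
    have k1 := bound1 x
    have k2 := bound2 x
    rw [abs_mul, abs_of_pos he]
    have c1 : |u1 x ^ 3 * v1 x * A x + u1 x ^ 2 * v1 x ^ 2 * B x| ≤
        Bc * r x ^ 4 * |A x| + Bc * |B x| := by
      refine (abs_add_le _ _).trans ?_
      rw [abs_mul, abs_mul (u1 x ^ 2 * v1 x ^ 2),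
        abs_of_nonneg (by positivity : 0 ≤ u1 x ^ 2 * v1 x ^ 2)]
      gcongr
    have c2 : Bc * r x ^ 4 * |A x| + Bc * |B x| ≤ Bc * (2 * M * r x ^ 2) := by
      have e1 : Bc * r x ^ 4 * |A x| = Bc * (r x ^ 2 * (|A x| * r x ^ 2)) := by ring
      rw [e1]
      have d1 : r x ^ 2 * (|A x| * r x ^ 2) ≤ r x ^ 2 * M := by gcongr
      have d2 : 2 * κ * M * r x ^ 2 ≤ 1 * M * r x ^ 2 := by
        gcongr
        linarith
      have : r x ^ 2 * (|A x| * r x ^ 2) + |B x| ≤ 2 * M * r x ^ 2 := by linarith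
      nlinarith
    calc e * |u1 x ^ 3 * v1 x * A x + u1 x ^ 2 * v1 x ^ 2 * B x| ≤
        e * (Bc * (2 * M * r x ^ 2)) := by
          gcongr
          exact c1.trans c2
      _ = 2 * κ * M * r x ^ 2 := by rw [hκ]; ring
  have hAcmp : ∀ x, 0 ≤ x → |A x - A 0| ≤ κ * M := by
    intro x hx
    have hd1 : ∀ x, HasDerivAt (fun x => 2 * κ * M * aa x - A x)
        (2 * κ * M * r x ^ 2 -
          (e * (u1 x ^ 3 * v1 x * A x + u1 x ^ 2 * v1 x ^ 2 * B x))) x := fun x =>
      ((hasDerivAt_aa x).const_mul _).sub (hAd x)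
    have hd2 : ∀ x, HasDerivAt (fun x => 2 * κ * M * aa x + A x)
        (2 * κ * M * r x ^ 2 +
          (e * (u1 x ^ 3 * v1 x * A x + u1 x ^ 2 * v1 x ^ 2 * B x))) x := fun x =>
      ((hasDerivAt_aa x).const_mul _).add (hAd x)
    have m1 := mono_Ici hd1 (a := 0) (fun z hz => by
      have := (abs_le.1 (hA' z hz)).2
      linarith) le_rfl hx
    have m2 := mono_Ici hd2 (a := 0) (fun z hz => by
      have := (abs_le.1 (hA' z hz)).1
      linarith) le_rfl hx
    simp only [aa_zero, mul_zero] at m1 m2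
    have h1 : 2 * κ * M * aa x ≤ 2 * κ * M * (1 / 30) := by
      have := aa_le x
      gcongr
    have h2 : 0 ≤ κ * M := by positivity
    rw [abs_le]
    constructor <;> linarith
  have hr0 : r 0 = 1 / 48 := by
    have h1 := r_sq 0
    have h2 := r_pos 0
    have h3 : (r 0 - 1 / 48) * (r 0 + 1 / 48) = 0 := by linarith
    rcases mul_eq_zero.1 h3 with h | h
    · linarith
    · linarith
  have hB00 : |B 0| ≤ κ * M := by
    have h1 := hBdec2 0 le_rfl
    rw [hr0] at h1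
    have : 0 ≤ κ * M := by positivity
    linarith
  have hMA : M ≤ 4 * |A 0| := by
    have h1 : M ^ 2 ≤ (2 * |A 0| + 2 * |B 0|) ^ 2 := by
      rw [hMsq, hr0]
      have h2 := sq_abs (A 0)
      have h3 := sq_abs (B 0)
      have h4 := abs_nonneg (A 0)
      have h5 := abs_nonneg (B 0)
      nlinarith [mul_nonneg h4 h5, sq_nonneg (A 0), sq_nonneg (B 0)]
    have h2 : M ≤ 2 * |A 0| + 2 * |B 0| := by
      apply le_of_sq_le_sq h1 (by positivity)
    have h3 : κ * M ≤ 1 / 100 * M := by gcongr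
    linarith
  by_cases hA0 : A 0 = 0
  · left
    refine ⟨hA0, ?_⟩
    have h1 : M = 0 := by
      apply le_antisymm _ hM0
      rw [hA0, abs_zero] at hMA
      linarith
    rw [h1] at hB00
    simpa using hB00
  · right
    have hA0p : 0 < A 0 ^ 2 := by positivity
    have hAsgn : ∀ x, 0 ≤ x → A 0 ^ 2 / 2 ≤ A 0 * A x := by
      intro x hx
      have h1 := hAcmp x hx
      have h2 : κ * M ≤ 1 / 100 * (4 * |A 0|) := by gcongr
      have h3 : |A 0 * (A x - A 0)| ≤ |A 0| * (1 / 25 * |A 0|) := by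
        rw [abs_mul]
        gcongr
        linarith
      have h4 := sq_abs (A 0)
      have h5 := (abs_le.1 h3).1
      nlinarith
    -- the monotone functional
    have hdB : ∀ x, HasDerivAt (fun x => -(A 0 * B x) -
        e * A 0 ^ 2 * (U4 x / 2 - 8 * Bc * κ * aa x))
        (-(A 0 * -(e * (u1 x ^ 4 * A x + u1 x ^ 3 * v1 x * B x))) -
          e * A 0 ^ 2 * (u1 x ^ 4 / 2 - 8 * Bc * κ * r x ^ 2)) x := by
      intro x
      exact ((hBd x).const_mul (A 0)).neg.sub
        ((((hasDerivAt_U4 x).div_const 2).sub ((hasDerivAt_aa x).const_mul _)).const_mul _)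
    have hpos : ∀ x, 0 ≤ x → 0 ≤ (-(A 0 * -(e * (u1 x ^ 4 * A x + u1 x ^ 3 * v1 x * B x))) -
          e * A 0 ^ 2 * (u1 x ^ 4 / 2 - 8 * Bc * κ * r x ^ 2)) := by
      intro x hx
      have h1 := hAsgn x hx
      have h2 : |A 0 * (u1 x ^ 3 * v1 x * B x)| ≤ 8 * Bc * κ * A 0 ^ 2 * r x ^ 2 := by
        have k1 := bound1 x
        have k2 := hBdec2 x hx
        have hr := r_pos x
        have hr1 := r_le x
        rw [abs_mul, abs_mul]
        calc |A 0| * (|u1 x ^ 3 * v1 x| * |B x|)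
            ≤ |A 0| * ((Bc * r x ^ 4) * (2 * κ * (4 * |A 0|) * r x ^ 2)) := by
              gcongr
              refine k2.trans ?_
              gcongr
          _ = 8 * Bc * κ * (|A 0| ^ 2) * r x ^ 2 * r x ^ 4 := by ring
          _ ≤ 8 * Bc * κ * (|A 0| ^ 2) * r x ^ 2 * 1 := by
              gcongr
              exact pow_le_one₀ hr.le (by linarith)
          _ = 8 * Bc * κ * A 0 ^ 2 * r x ^ 2 := by rw [sq_abs, mul_one]
      have h3 := (abs_le.1 h2).1
      have h4 : u1 x ^ 4 * (A 0 ^ 2 / 2) ≤ u1 x ^ 4 * (A 0 * A x) := by gcongr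
      have h5 : 0 ≤ u1 x ^ 4 * (A 0 * A x) + A 0 * (u1 x ^ 3 * v1 x * B x) -
          A 0 ^ 2 * (u1 x ^ 4 / 2 - 8 * Bc * κ * r x ^ 2) := by linarith
      have h6 := mul_nonneg he.le h5
      linarith
    have hmono : ∀ x, 0 ≤ x → e * A 0 ^ 2 * (U4 x / 2 - 8 * Bc * κ * aa x) + A 0 * B x ≤
        A 0 * B 0 := by
      intro x hx
      have := mono_Ici hdB hpos le_rfl hx
      simp only [U4_zero, aa_zero] at this
      linarith
    have hm := U4_one_pos
    set m := U4 1 with hmdef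
    set X : ℝ := 1 + 64 * Bc / m with hX
    have hX1 : 1 ≤ X := by
      have : 0 ≤ 64 * Bc / m := by positivity
      rw [hX]; linarith
    have hUX : m ≤ U4 X := by
      exact mono_Ici hasDerivAt_U4 (a := 0) (fun z _ => by positivity) (by norm_num) hX1
    have h1 := hmono X (by linarith)
    have h2 : 8 * Bc * κ * aa X ≤ m / 4 := by
      have := aa_le X
      have h3 : 8 * Bc * κ * aa X ≤ 8 * Bc * κ * (1 / 30) := by gcongr
      linarith
    have h3 : |A 0 * B X| < e * A 0 ^ 2 * (m / 4) := by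
      have k2 := hBdec2 X (by linarith)
      have hr := r_pos X
      have k3 : |A 0 * B X| ≤ |A 0| * (2 * κ * (4 * |A 0|) * r X ^ 2) := by
        rw [abs_mul]
        gcongr
        refine k2.trans ?_
        gcongr
      have k4 : |A 0| * (2 * κ * (4 * |A 0|) * r X ^ 2) = 8 * e * A 0 ^ 2 * (Bc * r X ^ 2) := by
        have : |A 0| * (2 * κ * (4 * |A 0|) * r X ^ 2) = 8 * κ * |A 0| ^ 2 * r X ^ 2 := by ring
        rw [this, sq_abs, hκ]; ring
      have k5 : Bc * r X ^ 2 < m / 32 := by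
        have h5 := r_sq X
        have h6 : r X ^ 2 * (64 * Bc / m) ≤ 1 := by
          have : 64 * Bc / m ≤ X ^ 2 + 2304 := by nlinarith
          calc r X ^ 2 * (64 * Bc / m) ≤ r X ^ 2 * (X ^ 2 + 2304) := by gcongr
            _ = 1 := h5
        have h7 : r X ^ 2 * (64 * Bc / m) * m ≤ 1 * m := by gcongr
        have h8 : r X ^ 2 * (64 * Bc / m) * m = 64 * (Bc * r X ^ 2) := by field_simp
        linarith
      rw [k4] at k3
      refine lt_of_le_of_lt k3 ?_
      have : 0 < 8 * e * A 0 ^ 2 := by positivity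
      nlinarith
    have h4 := (abs_le.1 h3.le).1
    have h5 : e * A 0 ^ 2 * (m / 4) ≤ e * A 0 ^ 2 * (U4 X / 2 - 8 * Bc * κ * aa X) := by
      gcongr
      linarith
    have h6 := (abs_lt.1 h3).1
    linarith

/-- No square integrable solution at the resonant energy. -/
lemma res_main (he : 0 < e) (hy : ∀ x, HasDerivAt y (y' x) x)
    (hy' : ∀ x, HasDerivAt y' ((W x - e * u1 x ^ 2 - 1) * y x) x)
    (hk : e * Bc ≤ 1 / 100) (hk2 : 8 * Bc * (e * Bc) / 30 ≤ U4 1 / 4)
    {C : ℝ} (hw : ∀ x, |W x - e * u1 x ^ 2 - 1| ≤ C)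
    (hint : Integrable (fun x => y x ^ 2)) : ∀ x, y x = 0 := by
  have h1 := res_half he hy hy' hk hk2 hw hint.integrableOn
  obtain ⟨hr1, hr2⟩ := reflect hy hy'
  have hr2' : ∀ x, HasDerivAt (fun x => -(y' (-x)))
      ((W x - e * u1 x ^ 2 - 1) * y (-x)) x := by
    intro x
    have := hr2 x
    rwa [W_neg, u1_neg] at this
  have h2 := res_half he hr1 hr2' hk hk2 hw (integrable_reflect hint).integrableOn
  have e1 : al (fun x => y (-x)) (fun x => -(y' (-x))) 0 = al y y' 0 := by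
    unfold al
    simp only [neg_zero, v1_zero]
    ring
  have e2 : be (fun x => y (-x)) (fun x => -(y' (-x))) 0 = -be y y' 0 := by
    unfold be
    simp only [neg_zero, u1'_zero]
    ring
  rw [e1, e2] at h2
  have h3 : al y y' 0 = 0 ∧ be y y' 0 = 0 := by
    rcases h1 with h | h
    · exact h
    · rcases h2 with h' | h'
      · exact ⟨h'.1, by linarith [h'.2]⟩
      · exfalso; linarith
  have h4 : y 0 = 0 := by rw [y_eq y y' 0, h3.1, h3.2]; ring
  have h5 : y' 0 = 0 := by rw [y'_eq y y' 0, h3.1, h3.2]; ring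
  exact ode_unique hy hy' hw 0 h4 h5

end

end

end NLSLib
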