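import Pool.Agent.NLSLib.Cls
import Pool.Agent.NLSLib.Res

/-!
# Positive energies different from `1`
-/

namespace NLSLib

open Real MeasureTheory Set Filter

noncomputable section

/-- non-oscillating part of the potential -/
def pp (x : ℝ) : ℝ := 1 - et x ^ 4

/-- amplitude of the oscillating part -/
def qq (x : ℝ) : ℝ := 4 * et x ^ 4 * Q x

/-- `sin 2θ` -/
def s2 (x : ℝ) : ℝ := 2 * s x * c x

/-- `cos 2θ` -/
def c2 (x : ℝ) : ℝ := c x ^ 2 - s x ^ 2

/-- remainder of the potential -/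
def er (e x : ℝ) : ℝ := W x - e * u1 x ^ 2 - pp x - qq x * s2 x

/-- derivative of `pp` -/
def pp' (x : ℝ) : ℝ := -(4 * et x ^ 3 * (12 * t x * r x ^ 2))

/-- derivative of `qq` -/
def qq' (x : ℝ) : ℝ :=
  16 * et x ^ 3 * (12 * t x * r x ^ 2) * Q x +
    4 * et x ^ 4 * (et x ^ 2 * c x ^ 2 * Di x - 2 * Q x ^ 2 * (et x ^ 2 * c x ^ 2))

lemma hasDerivAt_pp (x : ℝ) : HasDerivAt pp (pp' x) x := by
  refine HasDerivAt.congr_deriv (((hasDerivAt_et x).pow 4).const_sub 1) ?_
  unfold pp'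
  simp only [Nat.reduceSub, Nat.cast_ofNat]

lemma hasDerivAt_qq (x : ℝ) : HasDerivAt qq (qq' x) x := by
  refine HasDerivAt.congr_deriv
    ((((hasDerivAt_et x).pow 4).const_mul (4 : ℝ)).mul (hasDerivAt_Q x)) ?_
  unfold qq'
  simp only [Pi.pow_apply, Nat.reduceSub, Nat.cast_ofNat]
  ring

lemma hasDerivAt_s2 (x : ℝ) : HasDerivAt s2 (2 * et x ^ 2 * c2 x) x := by
  refine HasDerivAt.congr_deriv (((hasDerivAt_s x).const_mul (2 : ℝ)).mul (hasDerivAt_c x)) ?_
  unfold c2
  ring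

lemma hasDerivAt_c2 (x : ℝ) : HasDerivAt c2 (-(2 * et x ^ 2 * s2 x)) x := by
  refine HasDerivAt.congr_deriv (((hasDerivAt_c x).pow 2).sub ((hasDerivAt_s x).pow 2)) ?_
  unfold s2
  simp only [Nat.reduceSub, pow_one, Nat.cast_ofNat]
  ring

lemma alg_s2 : Alg s2 := ((Alg.const 2).mul Alg.s).mul Alg.c
lemma alg_c2 : Alg c2 := (Alg.c.pow 2).sub (Alg.s.pow 2)

lemma O_tr2 : O 2 (fun x => 12 * t x * r x ^ 2) :=
  (O.amul ((Alg.const 12).mul Alg.t) (O.mul O.r O.r)).congr (fun x => by ring)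

lemma O_pp' : O 2 pp' :=
  (O.amul ((Alg.const 4).mul (Alg.et.pow 3)) O_tr2).neg

lemma O_qq' : O 2 qq' := by
  unfold qq'
  apply O.add
  · exact (O.amul (Alg.Q.mul ((Alg.const 16).mul (Alg.et.pow 3))) O_tr2).congr
      (fun x => by ring)
  · apply O.amul ((Alg.const 4).mul (Alg.et.pow 4))
    apply O.sub
    · exact O.amul ((Alg.et.pow 2).mul (Alg.c.pow 2)) O.Di
    · exact (O.amul ((Alg.const 2).mul ((Alg.et.pow 2).mul (Alg.c.pow 2)))
        (O.mul O.Q O.Q)).congr (fun x => by ring)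

lemma O_eta : O 1 (fun x => et x ^ 2 - 1) :=
  (O.amul ((Alg.const (-12)).mul ((Alg.const 1).add Alg.et)) O.r).congr
    (fun x => by unfold et; ring)

lemma O_pp : O 1 pp :=
  (O.amul ((Alg.const 12).mul ((Alg.const 1).add (Alg.et.add ((Alg.et.pow 2).add
    (Alg.et.pow 3))))) O.r).congr (fun x => by unfold pp et; ring)

lemma O_qq : O 1 qq := O.amul ((Alg.const 4).mul (Alg.et.pow 4)) O.Q

lemma O_u1 : O 2 u1 := ⟨43, by norm_num, u1_abs⟩

lemma O_er (e : ℝ) : O 2 (er e) := by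
  have h1 : O 2 (fun x => 12 * r x ^ 3 * (1 - 3 * t x ^ 2) * om x) :=
    (O.amul (((Alg.const 12).mul ((Alg.const 1).sub ((Alg.const 3).mul (Alg.t.pow 2)))).mul
      (Alg.om.mul Alg.r)) (O.mul O.r O.r)).congr (fun x => by ring)
  have h2 : O 2 (fun x => 2 * (12 * t x * r x ^ 2) ^ 2 * om x ^ 2) :=
    (O.amul (((Alg.const 2).mul ((((Alg.const 12).mul Alg.t).mul (Alg.r.pow 2)))).mul
      (Alg.om.pow 2)) O_tr2).congr (fun x => by ring)
  have h3 : O 2 (fun x => 2 * et x ^ 4 * c x ^ 4 * Di x) :=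
    O.amul (((Alg.const 2).mul (Alg.et.pow 4)).mul (Alg.c.pow 4)) O.Di
  have h4 : O 2 (fun x => 8 * et x ^ 4 * Q x ^ 2 * c x ^ 4) :=
    (O.amul (((Alg.const 8).mul (Alg.et.pow 4)).mul (Alg.c.pow 4)) (O.mul O.Q O.Q)).congr
      (fun x => by ring)
  have h5 : O 2 (fun x => e * u1 x ^ 2) :=
    (O.amul (Alg.const e) ((O.mul O_u1 O_u1).weak (by norm_num))).congr (fun x => by ring)
  refine ((((h2.sub h1).sub h3).add h4).sub h5).congr (fun x => ?_)
  unfold er W pp qq s2
  ring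

lemma s2_abs (x : ℝ) : |s2 x| ≤ 1 := by
  have h := c_sq_add x
  unfold s2
  rw [abs_le]
  constructor <;> nlinarith [sq_nonneg (s x + c x), sq_nonneg (s x - c x)]

lemma c2_abs (x : ℝ) : |c2 x| ≤ 1 := by
  have h := c_sq_add x
  unfold c2
  rw [abs_le]
  constructor <;> nlinarith [sq_nonneg (s x), sq_nonneg (c x)]

/-- Modified energy -/
def En (lam a b c0 : ℝ) (y y' : ℝ → ℝ) (x : ℝ) : ℝ :=
  y' x ^ 2 + (lam - pp x) * y x ^ 2 -
    qq x * (a * y x ^ 2 * s2 x + b * (y x * y' x) * c2 x + c0 * y' x ^ 2 * s2 x)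

/-- coefficients of the derivative of the energy -/
def c11 (e a b x : ℝ) : ℝ :=
  -pp' x - qq' x * (a * s2 x) -
    qq x * (2 * a * c2 x * (et x ^ 2 - 1) + b * c2 x * (pp x + qq x * s2 x + er e x))
def c12 (e b c0 x : ℝ) : ℝ :=
  2 * er e x - qq' x * (b * c2 x) -
    qq x * (-(2 * b) * s2 x * (et x ^ 2 - 1) +
      2 * c0 * s2 x * (pp x + qq x * s2 x + er e x))
def c22 (c0 x : ℝ) : ℝ := -(qq' x * (c0 * s2 x)) - qq x * (2 * c0 * c2 x * (et x ^ 2 - 1))

lemma O_pot (e : ℝ) : O 1 (fun x => pp x + qq x * s2 x + er e x) :=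
  (O_pp.add ((O.amul alg_s2 O_qq).congr (g := fun x => qq x * s2 x) (fun x => by ring))).add
    ((O_er e).weak (by norm_num))

lemma O_c11 (e a b : ℝ) : O 2 (c11 e a b) := by
  unfold c11
  apply O.sub
  · apply O.sub
    · exact O_pp'.neg
    · exact (O.amul ((Alg.const a).mul alg_s2) O_qq').congr (fun x => by ring)
  · apply O.mul (k := 1) (l := 1) O_qq
    apply O.add
    · exact O.amul ((Alg.const (2 * a)).mul alg_c2) O_eta
    · exact O.amul ((Alg.const b).mul alg_c2) (O_pot e)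

lemma O_c12 (e b c0 : ℝ) : O 2 (c12 e b c0) := by
  unfold c12
  apply O.sub
  · apply O.sub
    · exact O.amul (Alg.const 2) (O_er e)
    · exact (O.amul ((Alg.const b).mul alg_c2) O_qq').congr (fun x => by ring)
  · apply O.mul (k := 1) (l := 1) O_qq
    apply O.add
    · exact O.amul ((Alg.const (-(2 * b))).mul alg_s2) O_eta
    · exact O.amul ((Alg.const (2 * c0)).mul alg_s2) (O_pot e)

lemma O_c22 (c0 : ℝ) : O 2 (c22 c0) := by
  unfold c22
  apply O.sub
  · exact ((O.amul ((Alg.const c0).mul alg_s2) O_qq').congr (fun x => by ring)).neg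
  · apply O.mul (k := 1) (l := 1) O_qq
    exact O.amul ((Alg.const (2 * c0)).mul alg_c2) O_eta

lemma hasDerivAt_En {e lam a b c0 : ℝ} {y y' : ℝ → ℝ} (hy : ∀ x, HasDerivAt y (y' x) x)
    (hy' : ∀ x, HasDerivAt y' ((W x - e * u1 x ^ 2 - lam) * y x) x)
    (ha : 2 * a = lam * b) (hc : b + 2 * c0 = 0) (hb : b * (lam - 1) = 1) (x : ℝ) :
    HasDerivAt (En lam a b c0 y y')
      (c11 e a b x * y x ^ 2 + c12 e b c0 x * (y x * y' x) + c22 c0 x * y' x ^ 2) x := by
  have hq := hasDerivAt_qq x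
  have hp := hasDerivAt_pp x
  have h1 := (hy' x).pow 2
  have h2 := ((hp.const_sub lam).mul ((hy x).pow 2))
  have h3 := (((hy x).pow 2).const_mul a).mul (hasDerivAt_s2 x)
  have h4 := (((hy x).mul (hy' x)).const_mul b).mul (hasDerivAt_c2 x)
  have h5 := (((hy' x).pow 2).const_mul c0).mul (hasDerivAt_s2 x)
  have h := (h1.add h2).sub (hq.mul ((h3.add h4).add h5))
  refine HasDerivAt.congr_deriv h ?_
  simp only [Pi.pow_apply, Pi.mul_apply, Pi.add_apply, Nat.reduceSub, pow_one, Nat.cast_ofNat]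
  have hW : W x - e * u1 x ^ 2 = pp x + qq x * s2 x + er e x := by unfold er; ring
  rw [hW]
  unfold c11 c12 c22
  have hc' : c0 = -b / 2 := by linarith
  have ha' : a = lam * b / 2 := by linarith
  rw [hc', ha']
  linear_combination (-2 * qq x * (y x * y' x) * s2 x) * hb

lemma r_small {K d : ℝ} (hK : 0 ≤ K) (hd : 0 < d) : ∀ x, K / d + 1 ≤ x → K * r x ≤ d := by
  intro x hx
  have h0 : 0 ≤ K / d := by positivity
  have hx0 : 0 < x := by linarith
  have h1 : |x| ≤ rho x := abs_le_rho x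
  rw [abs_of_pos hx0] at h1
  have h2 := r_mul_rho x
  have h3 := r_pos x
  have h4 : r x * x ≤ 1 := by
    calc r x * x ≤ r x * rho x := by gcongr
      _ = 1 := h2
  have h5 : K / d * d = K := by field_simp
  have h6 : r x * (K / d) ≤ 1 := by
    calc r x * (K / d) ≤ r x * x := by gcongr; linarith
      _ ≤ 1 := h4
  calc K * r x = (r x * (K / d)) * d := by rw [mul_assoc, h5, mul_comm]
    _ ≤ 1 * d := by gcongr
    _ = d := one_mul d

lemma nonres_main {e lam : ℝ} {y y' : ℝ → ℝ} (hlam : 0 < lam) (hlam1 : lam ≠ 1)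
    (hy : ∀ x, HasDerivAt y (y' x) x)
    (hy' : ∀ x, HasDerivAt y' ((W x - e * u1 x ^ 2 - lam) * y x) x)
    {C : ℝ} (hw : ∀ x, |W x - e * u1 x ^ 2 - lam| ≤ C)
    (hint : IntegrableOn (fun x => y x ^ 2) (Ioi 0)) : ∀ x, y x = 0 := by
  set b := 1 / (lam - 1) with hb
  set a := lam * b / 2 with ha
  set c0 := -b / 2 with hc0
  have hlam1' : lam - 1 ≠ 0 := sub_ne_zero.2 hlam1
  have hb1 : b * (lam - 1) = 1 := by rw [hb]; field_simp
  have hd := hasDerivAt_En (a := a) (b := b) (c0 := c0) hy hy' (by rw [ha]; ring)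
    (by rw [hc0]; ring) hb1
  obtain ⟨K1, hK1, h11⟩ := O_c11 e a b
  obtain ⟨K2, hK2, h12⟩ := O_c12 e b c0
  obtain ⟨K3, hK3, h22⟩ := O_c22 c0
  obtain ⟨Kp, hKp, hp⟩ := O_pp
  obtain ⟨Kq, hKq, hq⟩ := O_qq
  set N : ℝ → ℝ := fun x => y x ^ 2 + y' x ^ 2 with hN
  have hN0 : ∀ x, 0 ≤ N x := fun x => by rw [hN]; positivity
  have hyy : ∀ x, |y x * y' x| ≤ N x := by
    intro x
    rw [hN, abs_le]
    constructor <;> nlinarith [sq_nonneg (y x + y' x), sq_nonneg (y x - y' x)]
  set K := K1 + K2 + K3 with hK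
  have hK0 : 0 ≤ K := by rw [hK]; positivity
  have hE' : ∀ x, |c11 e a b x * y x ^ 2 + c12 e b c0 x * (y x * y' x) + c22 c0 x * y' x ^ 2|
      ≤ K * r x ^ 2 * N x := by
    intro x
    have hr := r_pos x
    have a1 : |c11 e a b x * y x ^ 2| ≤ K1 * r x ^ 2 * N x := by
      rw [abs_mul, abs_of_nonneg (sq_nonneg (y x))]
      apply mul_le_mul (h11 x) _ (sq_nonneg _) (by positivity)
      rw [hN]; simp only; linarith [sq_nonneg (y' x)]
    have a2 : |c12 e b c0 x * (y x * y' x)| ≤ K2 * r x ^ 2 * N x := by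
      rw [abs_mul]
      exact mul_le_mul (h12 x) (hyy x) (abs_nonneg _) (by positivity)
    have a3 : |c22 c0 x * y' x ^ 2| ≤ K3 * r x ^ 2 * N x := by
      rw [abs_mul, abs_of_nonneg (sq_nonneg (y' x))]
      apply mul_le_mul (h22 x) _ (sq_nonneg _) (by positivity)
      rw [hN]; simp only; linarith [sq_nonneg (y x)]
    calc _ ≤ |c11 e a b x * y x ^ 2| + |c12 e b c0 x * (y x * y' x)| +
          |c22 c0 x * y' x ^ 2| := abs_add_three _ _ _
      _ ≤ K1 * r x ^ 2 * N x + K2 * r x ^ 2 * N x + K3 * r x ^ 2 * N x := by linarith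
      _ = K * r x ^ 2 * N x := by rw [hK]; ring
  set G : ℝ := Kp + Kq * (|a| + |b| + |c0|) with hG
  have hG0 : 0 ≤ G := by rw [hG]; positivity
  -- comparison of `En` with `N`
  have hEN : ∀ x, |En lam a b c0 y y' x - (y' x ^ 2 + lam * y x ^ 2)| ≤ G * r x * N x := by
    intro x
    have hr := r_pos x
    have e1 : En lam a b c0 y y' x - (y' x ^ 2 + lam * y x ^ 2) = -(pp x * y x ^ 2) -
      qq x * (a * y x ^ 2 * s2 x + b * (y x * y' x) * c2 x + c0 * y' x ^ 2 * s2 x) := by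
      unfold En; ring
    have n1 : y x ^ 2 ≤ N x := by rw [hN]; simp only; linarith [sq_nonneg (y' x)]
    have n2 : y' x ^ 2 ≤ N x := by rw [hN]; simp only; linarith [sq_nonneg (y x)]
    have a1 : |a * y x ^ 2 * s2 x| ≤ |a| * N x := by
      rw [abs_mul, abs_mul, abs_of_nonneg (sq_nonneg (y x))]
      calc |a| * y x ^ 2 * |s2 x| ≤ |a| * N x * 1 := by
            have := s2_abs x
            gcongr
        _ = _ := mul_one _
    have a2 : |b * (y x * y' x) * c2 x| ≤ |b| * N x := by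
      rw [abs_mul, abs_mul b]
      calc |b| * |y x * y' x| * |c2 x| ≤ |b| * N x * 1 := by
            have := c2_abs x
            have := hyy x
            gcongr
        _ = _ := mul_one _
    have a3 : |c0 * y' x ^ 2 * s2 x| ≤ |c0| * N x := by
      rw [abs_mul, abs_mul, abs_of_nonneg (sq_nonneg (y' x))]
      calc |c0| * y' x ^ 2 * |s2 x| ≤ |c0| * N x * 1 := by
            have := s2_abs x
            gcongr
        _ = _ := mul_one _
    have a4 : |a * y x ^ 2 * s2 x + b * (y x * y' x) * c2 x + c0 * y' x ^ 2 * s2 x| ≤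
        (|a| + |b| + |c0|) * N x := by
      refine (abs_add_three _ _ _).trans ?_
      linarith
    have hp1 := hp x
    have hq1 := hq x
    rw [pow_one] at hp1 hq1
    have a5 : |pp x * y x ^ 2| ≤ Kp * r x * N x := by
      rw [abs_mul, abs_of_nonneg (sq_nonneg (y x))]
      exact mul_le_mul hp1 n1 (sq_nonneg _) (by positivity)
    have a6 : |qq x * (a * y x ^ 2 * s2 x + b * (y x * y' x) * c2 x + c0 * y' x ^ 2 * s2 x)| ≤
        (Kq * r x) * ((|a| + |b| + |c0|) * N x) := by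
      rw [abs_mul]
      exact mul_le_mul hq1 a4 (abs_nonneg _) (by positivity)
    rw [e1]
    refine (abs_sub _ _).trans ?_
    rw [abs_neg]
    calc _ ≤ Kp * r x * N x + (Kq * r x) * ((|a| + |b| + |c0|) * N x) := add_le_add a5 a6
      _ = G * r x * N x := by rw [hG]; ring
  set m0 : ℝ := min 1 lam / 2 with hm0
  have hm0p : 0 < m0 := by
    rw [hm0]; have : 0 < min 1 lam := lt_min one_pos hlam
    positivity
  set X0 : ℝ := G / m0 + 1 with hX0
  have hsm : ∀ x, X0 ≤ x → G * r x ≤ m0 := r_small hG0 hm0p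
  have hlow : ∀ x, X0 ≤ x → m0 * N x ≤ En lam a b c0 y y' x := by
    intro x hx
    have h1 := (abs_le.1 (hEN x)).1
    have h2 := hsm x hx
    have h3 : G * r x * N x ≤ m0 * N x := by
      have := hN0 x
      gcongr
    have h4 : 2 * m0 * N x ≤ y' x ^ 2 + lam * y x ^ 2 := by
      have e1 : 2 * m0 = min 1 lam := by rw [hm0]; ring
      have e2 : min 1 lam ≤ 1 := min_le_left _ _
      have e3 : min 1 lam ≤ lam := min_le_right _ _
      rw [e1, hN]
      simp only
      nlinarith [sq_nonneg (y x), sq_nonneg (y' x)]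
    linarith
  have hup : ∀ x, X0 ≤ x → En lam a b c0 y y' x ≤ (1 + lam + m0) * N x := by
    intro x hx
    have h1 := (abs_le.1 (hEN x)).2
    have h2 := hsm x hx
    have h3 : G * r x * N x ≤ m0 * N x := by
      have := hN0 x
      gcongr
    have h4 : y' x ^ 2 + lam * y x ^ 2 ≤ (1 + lam) * N x := by
      rw [hN]
      simp only
      nlinarith [sq_nonneg (y x), sq_nonneg (y' x), mul_nonneg hlam.le (sq_nonneg (y' x))]
    linarith
  by_cases hz : N X0 = 0
  · have h1 : y X0 = 0 := by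
      rw [hN] at hz; simp only at hz
      nlinarith [sq_nonneg (y X0), sq_nonneg (y' X0)]
    have h2 : y' X0 = 0 := by
      rw [hN] at hz; simp only at hz
      nlinarith [sq_nonneg (y X0), sq_nonneg (y' X0)]
    exact ode_unique hy hy' hw X0 h1 h2
  · exfalso
    have hNp : 0 < N X0 := lt_of_le_of_ne (hN0 X0) (Ne.symm hz)
    set E0 := En lam a b c0 y y' X0 with hE0
    have hE0p : 0 < E0 := lt_of_lt_of_le (by positivity) (hlow X0 le_rfl)
    set k := K / m0 with hk
    have hk0 : 0 ≤ k := by rw [hk]; positivity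
    have hd2 : ∀ x, HasDerivAt (fun x => En lam a b c0 y y' x * exp (k * aa x))
        (((c11 e a b x * y x ^ 2 + c12 e b c0 x * (y x * y' x) + c22 c0 x * y' x ^ 2) +
          k * r x ^ 2 * En lam a b c0 y y' x) * exp (k * aa x)) x := by
      intro x
      refine HasDerivAt.congr_deriv ((hd x).mul (((hasDerivAt_aa x).const_mul k).exp)) ?_
      ring
    have hmon : ∀ x, X0 ≤ x → E0 * exp (k * aa X0) ≤ En lam a b c0 y y' x * exp (k * aa x) := by
      intro x hx
      refine mono_Ici hd2 (a := X0) (fun z hz => ?_) le_rfl hx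
      apply mul_nonneg _ (exp_pos _).le
      have h1 := (abs_le.1 (hE' z)).1
      have h2 := hlow z hz
      have h3 : K * r z ^ 2 * N z ≤ k * r z ^ 2 * En lam a b c0 y y' z := by
        have h4 : k * m0 = K := by rw [hk]; field_simp
        have hr := r_pos z
        calc K * r z ^ 2 * N z = k * r z ^ 2 * (m0 * N z) := by rw [← h4]; ring
          _ ≤ k * r z ^ 2 * En lam a b c0 y y' z := by gcongr
      linarith
    refine not_L2_of_energy hy hy' hw (X := X0)
      (d := E0 * exp (-(k / 30)) / (exp (k / 30) * (1 + lam + m0))) (by positivity) ?_ hint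
    intro x hx
    have h1 := hmon x hx
    have h2 := hup x hx
    have h3 : exp (-(k / 30)) ≤ exp (k * aa X0) := by
      apply exp_le_exp.2
      have := aa_ge X0
      nlinarith
    have h4 : exp (k * aa x) ≤ exp (k / 30) := by
      apply exp_le_exp.2
      have := aa_le x
      nlinarith
    have hEx : 0 ≤ En lam a b c0 y y' x := le_trans (by have := hN0 x; positivity) (hlow x hx)
    rw [div_le_iff₀ (by positivity)]
    calc E0 * exp (-(k / 30)) ≤ E0 * exp (k * aa X0) := by gcongr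
      _ ≤ En lam a b c0 y y' x * exp (k * aa x) := h1
      _ ≤ ((1 + lam + m0) * N x) * exp (k / 30) := by
          have := hN0 x
          gcongr
      _ = (y x ^ 2 + y' x ^ 2) * (exp (k / 30) * (1 + lam + m0)) := by rw [hN]; ring

end

end NLSLib
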