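import Pool.Agent.NLSLib.Basic

/-!
# The explicit pair of solutions
-/

namespace NLSLib

open Real MeasureTheory intervalIntegral

noncomputable section

/-- The localised profile. -/
def u1 (x : ℝ) : ℝ := c x * om x * Di x

/-- Its derivative. -/
def u1' (x : ℝ) : ℝ :=
  -(s x * et x * Di x) - c x * (12 * t x * r x ^ 2) * om x ^ 2 * Di x
    - 2 * Q x * et x * c x ^ 3 * Di x

/-- The linear potential for which `u1'' = (W-1) u1`. -/
def W (x : ℝ) : ℝ :=
  1 - et x ^ 4 + 8 * et x ^ 4 * Q x * s x * c x - 12 * r x ^ 3 * (1 - 3 * t x ^ 2) * om x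
    + 2 * (12 * t x * r x ^ 2) ^ 2 * om x ^ 2 - 2 * et x ^ 4 * c x ^ 4 * Di x
    + 8 * et x ^ 4 * Q x ^ 2 * c x ^ 4

lemma hasDerivAt_u1 (x : ℝ) : HasDerivAt u1 (u1' x) x := by
  have h := ((hasDerivAt_c x).mul (hasDerivAt_om x)).mul (hasDerivAt_Di x)
  refine HasDerivAt.congr_deriv h ?_
  unfold u1'
  have h1 := om_mul x
  simp only [Pi.mul_apply]
  have h2 : et x ^ 2 * om x = et x := by
    calc et x ^ 2 * om x = et x * (om x * et x) := by ring
      _ = et x := by rw [h1, mul_one]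
  linear_combination (-(s x * Di x) - 2 * Q x * c x ^ 3 * Di x) * h2

lemma hasDerivAt_etp (x : ℝ) :
    HasDerivAt (fun x => 12 * t x * r x ^ 2) (12 * r x ^ 3 * (1 - 3 * t x ^ 2)) x := by
  have h := ((hasDerivAt_t x).const_mul (12 : ℝ)).mul ((hasDerivAt_r x).pow 2)
  refine HasDerivAt.congr_deriv h ?_
  simp only [Pi.pow_apply]
  ring

lemma hasDerivAt_u1' (x : ℝ) : HasDerivAt u1' ((W x - 1) * u1 x) x := by
  have h1 := ((hasDerivAt_s x).mul (hasDerivAt_et x)).mul (hasDerivAt_Di x)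
  have h2 := (((hasDerivAt_c x).mul (hasDerivAt_etp x)).mul ((hasDerivAt_om x).pow 2)).mul
    (hasDerivAt_Di x)
  have h3 := ((((hasDerivAt_Q x).const_mul (2 : ℝ)).mul (hasDerivAt_et x)).mul
    ((hasDerivAt_c x).pow 3)).mul (hasDerivAt_Di x)
  have h := (h1.neg.sub h2).sub h3
  refine HasDerivAt.congr_deriv h ?_
  simp only [Pi.pow_apply, Pi.mul_apply, Nat.reduceSub, pow_one, Nat.cast_ofNat]
  unfold W u1
  have h1 : om x = 1 / et x := rfl
  have h2 := (et_pos x).ne'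
  have h3 := c_sq_add x
  rw [h1]
  field_simp
  ring

lemma W_neg (x : ℝ) : W (-x) = W x := by
  unfold W
  rw [et_neg, Q_neg, s_neg, c_neg, r_neg, t_neg, om_neg, Di_neg]
  ring

lemma u1_neg (x : ℝ) : u1 (-x) = u1 x := by
  unfold u1
  rw [c_neg, om_neg, Di_neg]

lemma u1'_zero : u1' 0 = 0 := by
  unfold u1' Q t
  simp [s, th_zero, S_zero]

lemma u1_zero_pos : 0 < u1 0 := by
  unfold u1 c
  rw [th_zero, Real.cos_zero, one_mul]
  exact mul_pos (om_pos 0) (Di_pos 0)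

/-! ### bounds -/

lemma u1_abs (x : ℝ) : |u1 x| ≤ 43 * r x ^ 2 := by
  unfold u1
  rw [abs_mul, abs_mul, abs_of_pos (om_pos x), abs_of_pos (Di_pos x)]
  have h1 := c_abs x
  have h2 := om_le x
  have h3 := Di_le x
  have h4 := om_pos x
  have h5 := Di_pos x
  calc |c x| * om x * Di x ≤ 1 * (4 / 3) * (32 * r x ^ 2) := by gcongr
    _ ≤ 43 * r x ^ 2 := by nlinarith [sq_nonneg (r x)]

lemma u1'_abs (x : ℝ) : |u1' x| ≤ 200 * r x ^ 2 := by
  have h1 := c_abs x
  have h2 := om_le x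
  have h3 := Di_le x
  have h4 := om_pos x
  have h5 := Di_pos x
  have h6 := s_abs x
  have h7 := et_lt x
  have h8 := et_pos x
  have h9 := t_abs_le x
  have h10 := r_le x
  have h11 := r_pos x
  have h12 := Q_abs_le x
  have e : u1' x = (-(s x * et x) - c x * (12 * t x * r x ^ 2) * om x ^ 2
      - 2 * Q x * et x * c x ^ 3) * Di x := by unfold u1'; ring
  rw [e, abs_mul, abs_of_pos h5]
  have k1 : |s x * et x| ≤ 1 * 1 := by
    rw [abs_mul, abs_of_pos h8]; gcongr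
  have k2 : |c x * (12 * t x * r x ^ 2) * om x ^ 2| ≤
      1 * (12 * 1 * (1 / 48) ^ 2) * (4 / 3) ^ 2 := by
    rw [abs_mul, abs_mul, abs_mul, abs_mul, abs_of_pos (by positivity : (0 : ℝ) < om x ^ 2),
      abs_of_pos (by positivity : (0 : ℝ) < r x ^ 2), abs_of_pos (by norm_num : (0 : ℝ) < 12)]
    gcongr
  have k3 : |2 * Q x * et x * c x ^ 3| ≤ 2 * (283 / 50 * (1 / 48)) * 1 * 1 ^ 3 := by
    rw [abs_mul, abs_mul, abs_mul, abs_of_pos h8, abs_pow, abs_of_pos (by norm_num : (0 : ℝ) < 2)]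
    gcongr
    exact h12.trans (by gcongr)
  have k4 : |-(s x * et x) - c x * (12 * t x * r x ^ 2) * om x ^ 2
      - 2 * Q x * et x * c x ^ 3| ≤ 3 := by
    rw [abs_le] at k1 k2 k3 ⊢
    constructor <;> linarith [k1.1, k1.2, k2.1, k2.2, k3.1, k3.2]
  calc _ ≤ 3 * (32 * r x ^ 2) := by gcongr
    _ ≤ 200 * r x ^ 2 := by nlinarith [sq_nonneg (r x)]

lemma W_ge (x : ℝ) : 8 * r x ≤ W x - u1 x ^ 2 := by
  have h2 := om_le x
  have h3 := Di_le x
  have h4 := om_pos x
  have h5 := Di_pos x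
  have h7 := et_lt x
  have h8 := et_ge x
  have h8' := et_pos x
  have h9 := t_sq x
  have h10 := r_le x
  have h11 := r_pos x
  have h12 := Q_abs_le x
  have h13 := c_sq_add x
  have h14 := u1_abs x
  -- main term
  have e1 : et x = 1 - 12 * r x := rfl
  have m1 : 32 * r x + 1 / 2 * r x ≤ 1 - et x ^ 4 := by
    have e : 1 - et x ^ 4 = 12 * r x * (1 + et x + et x ^ 2 + et x ^ 3) := by
      rw [e1]; ring
    rw [e]
    have : (3 / 4 : ℝ) ^ 2 ≤ et x ^ 2 := by gcongr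
    have h3' : (3 / 4 : ℝ) ^ 3 ≤ et x ^ 3 := by gcongr
    have : 2.73 ≤ 1 + et x + et x ^ 2 + et x ^ 3 := by linarith
    nlinarith
  have e4 : et x ^ 4 ≤ 1 := pow_le_one₀ h8'.le h7.le
  have e4' : 0 ≤ et x ^ 4 := by positivity
  -- oscillating term
  have m2 : -(22.64 * r x) ≤ 8 * et x ^ 4 * Q x * s x * c x := by
    have k : |8 * et x ^ 4 * Q x * s x * c x| ≤ 22.64 * r x := by
      have : 8 * et x ^ 4 * Q x * s x * c x = et x ^ 4 * Q x * (8 * (s x * c x)) := by ring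
      rw [this, abs_mul, abs_mul, abs_of_nonneg e4']
      have k1 : |8 * (s x * c x)| ≤ 4 := by
        rw [abs_le]
        constructor <;> nlinarith [sq_nonneg (s x + c x), sq_nonneg (s x - c x)]
      calc et x ^ 4 * |Q x| * |8 * (s x * c x)| ≤ 1 * (283 / 50 * r x) * 4 := by gcongr
        _ = 22.64 * r x := by ring
    linarith [(abs_le.1 k).1]
  have m3 : -(r x / 100) ≤ -(12 * r x ^ 3 * (1 - 3 * t x ^ 2) * om x) := by
    have k : 12 * r x ^ 3 * (1 - 3 * t x ^ 2) * om x ≤ 12 * r x ^ 3 * 1 * (4 / 3) := by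
      have : 12 * r x ^ 3 * (1 - 3 * t x ^ 2) * om x ≤ 12 * r x ^ 3 * 1 * om x := by
        gcongr
        nlinarith [sq_nonneg (t x)]
      refine this.trans ?_
      gcongr
    have k2 : r x ^ 3 ≤ (1 / 48) ^ 2 * r x := by
      have : r x ^ 3 = r x ^ 2 * r x := by ring
      rw [this]; gcongr
    nlinarith
  have m4 : 0 ≤ 2 * (12 * t x * r x ^ 2) ^ 2 * om x ^ 2 := by positivity
  have m5 : -(1.4 * r x) ≤ -(2 * et x ^ 4 * c x ^ 4 * Di x) := by
    have k0 : c x ^ 2 ≤ 1 := by nlinarith [sq_nonneg (s x)]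
    have k1 : c x ^ 4 ≤ 1 := by nlinarith [sq_nonneg (c x)]
    have k2 : 0 ≤ c x ^ 4 := by positivity
    have k : 2 * et x ^ 4 * c x ^ 4 * Di x ≤ 2 * 1 * 1 * (32 * r x ^ 2) := by gcongr
    nlinarith
  have m6 : 0 ≤ 8 * et x ^ 4 * Q x ^ 2 * c x ^ 4 := by
    have : 0 ≤ c x ^ 4 := by positivity
    positivity
  have m7 : u1 x ^ 2 ≤ 0.1 * r x := by
    have k1 : u1 x ^ 2 ≤ (43 * r x ^ 2) ^ 2 := by
      rw [← sq_abs]; gcongr
    have k2 : (43 * r x ^ 2) ^ 2 = 1849 * (r x ^ 3 * r x) := by ring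
    have k3 : r x ^ 3 ≤ (1 / 48) ^ 3 := by gcongr
    have k4 : r x ^ 3 * r x ≤ (1 / 48) ^ 3 * r x := by gcongr
    rw [k2] at k1
    nlinarith
  unfold W
  linarith

lemma th_le {x : ℝ} (hx : 0 ≤ x) : th x ≤ x := by
  have hd : ∀ y, HasDerivAt (fun y => y - th y) (1 - et y ^ 2) y := by
    intro y
    exact (hasDerivAt_id' y).sub (hasDerivAt_th y)
  have hm : Monotone (fun y => y - th y) := by
    apply monotone_of_deriv_nonneg
    · intro y; exact (hd y).differentiableAt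
    · intro y
      rw [(hd y).deriv]
      have := et_lt y
      have := et_pos y
      nlinarith
  have := hm hx
  simp only [th_zero] at this
  linarith

lemma th_abs (x : ℝ) : |th x| ≤ |x| := by
  have key : ∀ {y : ℝ}, 0 ≤ y → |th y| ≤ |y| := by
    intro y hy
    have h1 := th_ge hy
    have h2 := th_le hy
    rw [abs_of_nonneg (by linarith : 0 ≤ th y), abs_of_nonneg hy]
    exact h2
  rcases le_total 0 x with h | h
  · exact key h
  · have := key (y := -x) (by linarith)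
    rwa [th_neg, abs_neg, abs_neg] at this

/-- `ρ = √(x²+48²) = 1/r`. -/
def rho (x : ℝ) : ℝ := √(x ^ 2 + 2304)

lemma rho_pos (x : ℝ) : 0 < rho x := sqrt_pos' x

lemma r_mul_rho (x : ℝ) : r x * rho x = 1 := by
  unfold r rho
  rw [one_div, inv_mul_cancel₀ (sqrt_pos' x).ne']

lemma rho_sq (x : ℝ) : rho x ^ 2 = x ^ 2 + 2304 := Real.sq_sqrt (base_pos x).le

lemma abs_le_rho (x : ℝ) : |x| ≤ rho x := by
  apply abs_le_of_sq_le_sq _ (rho_pos x).le
  rw [rho_sq]; linarith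

lemma rho_ge (x : ℝ) : 48 ≤ rho x := by
  have h1 := rho_sq x
  have h2 := rho_pos x
  nlinarith [sq_nonneg x]

lemma rho_mono {x y : ℝ} (h : |x| ≤ |y|) : rho x ≤ rho y := by
  apply Real.sqrt_le_sqrt
  have := sq_le_sq.2 h
  linarith

lemma S_abs (x : ℝ) : |S x| ≤ rho x := by
  have h1 := th_abs x
  have h2 := abs_le_rho x
  have h3 := rho_ge x
  have h4 := c_sq_add x
  have h5 : |s x * c x| ≤ 1 := by
    rw [abs_mul]
    have := s_abs x
    have := c_abs x
    calc |s x| * |c x| ≤ 1 * 1 := by gcongr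
      _ = 1 := one_mul 1
  unfold S
  rw [abs_le] at h1 h5 ⊢
  constructor <;> linarith [h1.1, h1.2, h5.1, h5.2]

lemma D_le (x : ℝ) : D x ≤ 2 * rho x ^ 2 := by
  have h1 := S_abs x
  have h2 : S x ^ 2 ≤ rho x ^ 2 := by rw [← sq_abs]; gcongr
  have h3 := rho_ge x
  unfold D
  nlinarith

/-- integrand of the reduction-of-order integral. -/
def Ig (x : ℝ) : ℝ := 4 * D x * S x * s x * c x * et x ^ 2

/-- reduction-of-order integral. -/
def I (x : ℝ) : ℝ := ∫ y in (0 : ℝ)..x, Ig y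

lemma continuous_Ig : Continuous Ig := by
  have h1 : Continuous D := continuous_iff_continuousAt.2 fun x => (hasDerivAt_D x).continuousAt
  have h2 : Continuous S := continuous_iff_continuousAt.2 fun x => (hasDerivAt_S x).continuousAt
  have h3 : Continuous s := continuous_iff_continuousAt.2 fun x => (hasDerivAt_s x).continuousAt
  have h4 : Continuous c := continuous_iff_continuousAt.2 fun x => (hasDerivAt_c x).continuousAt
  have h5 : Continuous et := continuous_iff_continuousAt.2 fun x => (hasDerivAt_et x).continuousAt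
  unfold Ig
  fun_prop

lemma hasDerivAt_I (x : ℝ) : HasDerivAt I (Ig x) x :=
  intervalIntegral.integral_hasDerivAt_right (continuous_Ig.intervalIntegrable _ _)
    (continuous_Ig.stronglyMeasurableAtFilter _ _) continuous_Ig.continuousAt

lemma I_zero : I 0 = 0 := by simp [I]

lemma Ig_abs (x : ℝ) : |Ig x| ≤ 8 * rho x ^ 3 := by
  have h1 := D_le x
  have h2 := D_pos x
  have h3 := S_abs x
  have h4 := s_abs x
  have h5 := c_abs x
  have h6 := et_pos x
  have h7 := et_lt x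
  have h8 := rho_pos x
  unfold Ig
  rw [abs_mul, abs_mul, abs_mul, abs_mul, abs_mul, abs_of_pos h2,
    abs_of_pos (by positivity : 0 < et x ^ 2), abs_of_pos (by norm_num : (0 : ℝ) < 4)]
  calc 4 * D x * |S x| * |s x| * |c x| * et x ^ 2
      ≤ 4 * (2 * rho x ^ 2) * rho x * 1 * 1 * 1 ^ 2 := by gcongr
    _ = 8 * rho x ^ 3 := by ring

lemma I_abs (x : ℝ) : |I x| ≤ 8 * rho x ^ 4 := by
  have h : ∀ y ∈ Set.uIoc (0 : ℝ) x, ‖Ig y‖ ≤ 8 * rho x ^ 3 := by
    intro y hy
    have h1 : |y| ≤ |x| := by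
      rcases le_total 0 x with h | h
      · rw [Set.uIoc_of_le h] at hy
        rw [abs_of_pos hy.1, abs_of_nonneg h]; exact hy.2
      · rw [Set.uIoc_of_ge h] at hy
        rw [abs_of_nonpos hy.2, abs_of_nonpos h]; linarith [hy.1]
    have h2 := rho_mono h1
    have h3 := Ig_abs y
    have h4 := rho_pos y
    rw [Real.norm_eq_abs]
    refine h3.trans ?_
    gcongr
  have h2 := intervalIntegral.norm_integral_le_of_norm_le_const h
  rw [sub_zero] at h2
  have h3 := abs_le_rho x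
  have h4 := rho_pos x
  calc |I x| = ‖∫ y in (0 : ℝ)..x, Ig y‖ := rfl
    _ ≤ 8 * rho x ^ 3 * |x| := h2
    _ ≤ 8 * rho x ^ 3 * rho x := by gcongr
    _ = 8 * rho x ^ 4 := by ring

/-- The second solution. -/
def v1 (x : ℝ) : ℝ := D x * s x * om x - u1 x * I x

/-- Its derivative. -/
def v1' (x : ℝ) : ℝ :=
  D x * (c x * et x - s x * (12 * t x * r x ^ 2) * om x ^ 2) - 2 * S x * et x * c x ^ 2 * s x
    - u1' x * I x

lemma hasDerivAt_v1 (x : ℝ) : HasDerivAt v1 (v1' x) x := by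
  have h1 := ((hasDerivAt_D x).mul (hasDerivAt_s x)).mul (hasDerivAt_om x)
  have h2 := (hasDerivAt_u1 x).mul (hasDerivAt_I x)
  refine HasDerivAt.congr_deriv (h1.sub h2) ?_
  simp only [Pi.mul_apply]
  unfold v1' Ig
  have h3 : u1 x = c x * (1 / et x) * (1 / D x) := rfl
  have h4 : om x = 1 / et x := rfl
  have h5 := (et_pos x).ne'
  have h6 := (D_pos x).ne'
  rw [h3, h4]
  field_simp
  ring

lemma hasDerivAt_v1' (x : ℝ) : HasDerivAt v1' ((W x - 1) * v1 x) x := by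
  have h1 := (hasDerivAt_D x).mul (((hasDerivAt_c x).mul (hasDerivAt_et x)).sub
    (((hasDerivAt_s x).mul (hasDerivAt_etp x)).mul ((hasDerivAt_om x).pow 2)))
  have h2 := ((((hasDerivAt_S x).const_mul (2 : ℝ)).mul (hasDerivAt_et x)).mul
    ((hasDerivAt_c x).pow 2)).mul (hasDerivAt_s x)
  have h3 := (hasDerivAt_u1' x).mul (hasDerivAt_I x)
  refine HasDerivAt.congr_deriv ((h1.sub h2).sub h3) ?_
  simp only [Pi.pow_apply, Pi.mul_apply, Pi.sub_apply, Nat.reduceSub, pow_one, Nat.cast_ofNat]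
  unfold v1 u1' W Ig
  have h3 : u1 x = c x * (1 / et x) * (1 / D x) := rfl
  have h4 : om x = 1 / et x := rfl
  have h5 := (et_pos x).ne'
  have h6 := (D_pos x).ne'
  have h7 : Q x = S x / D x := rfl
  have h8 : Di x = 1 / D x := rfl
  rw [h3, h4, h7, h8]
  field_simp
  ring

lemma wronsk (x : ℝ) : u1 x * v1' x - u1' x * v1 x = 1 := by
  unfold v1 v1' u1'
  have h3 : u1 x = c x * (1 / et x) * (1 / D x) := rfl
  have h4 : om x = 1 / et x := rfl
  have h5 := (et_pos x).ne'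
  have h6 := (D_pos x).ne'
  have h7 : Q x = S x / D x := rfl
  have h8 : Di x = 1 / D x := rfl
  have h9 := c_sq_add x
  have h10 : s x ^ 2 = 1 - c x ^ 2 := by linarith
  rw [h3, h4, h7, h8]
  field_simp
  ring_nf
  simp only [h10]
  ring

lemma v1_zero : v1 0 = 0 := by
  unfold v1
  simp [s, th_zero, I_zero]

lemma v1_abs (x : ℝ) : |v1 x| * r x ^ 2 ≤ 400 := by
  have h1 := D_le x
  have h2 := D_pos x
  have h3 := s_abs x
  have h4 := om_pos x
  have h5 := om_le x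
  have h6 := u1_abs x
  have h7 := I_abs x
  have h8 := r_pos x
  have h9 := r_mul_rho x
  have h10 := rho_pos x
  have k1 : |D x * s x * om x| ≤ 2 * rho x ^ 2 * 1 * (4 / 3) := by
    rw [abs_mul, abs_mul, abs_of_pos h2, abs_of_pos h4]
    gcongr
  have k2 : |u1 x * I x| ≤ 43 * r x ^ 2 * (8 * rho x ^ 4) := by
    rw [abs_mul]
    gcongr
  have k3 : |v1 x| ≤ 2 * rho x ^ 2 * 1 * (4 / 3) + 43 * r x ^ 2 * (8 * rho x ^ 4) := by
    unfold v1
    refine (abs_sub _ _).trans ?_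
    linarith
  calc |v1 x| * r x ^ 2 ≤
      (2 * rho x ^ 2 * 1 * (4 / 3) + 43 * r x ^ 2 * (8 * rho x ^ 4)) * r x ^ 2 := by gcongr
    _ = 8 / 3 * (r x * rho x) ^ 2 + 344 * (r x * rho x) ^ 4 := by ring
    _ ≤ 400 := by rw [h9]; norm_num

end

end NLSLib
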